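import Mathlib
import Pool.Agent.Lib.P187f6b.Bounds
import Pool.Agent.Lib.P187f6b.Defs

/-!
# Two steps of the Schur algorithm
-/

set_option autoImplicit false

open Complex Metric Set
open scoped ComplexConjugate
open Pool.Agent.P187f6b

namespace Pool.Agent.P187s

/-- One step of the Schur algorithm. -/
lemma schur_step {h : ℂ → ℂ} (hd : DifferentiableOn ℂ h (ball 0 1))
    (hb : ∀ z : ℂ, ‖z‖ < 1 → ‖h z‖ ≤ 1) {γ : ℂ} (h0 : h 0 = γ) (hγ : ‖γ‖ < 1) :
    ∃ k : ℂ → ℂ, DifferentiableOn ℂ k (ball 0 1) ∧ (∀ z : ℂ, ‖z‖ < 1 → ‖k z‖ ≤ 1) ∧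
      ∀ z : ℂ, ‖z‖ < 1 → h z * (1 + conj γ * z * k z) = γ + z * k z := by
  have hne : ∀ z : ℂ, ‖z‖ < 1 → 1 - conj γ * h z ≠ 0 := by
    intro z hz hcon
    have h1 : conj γ * h z = 1 := by linear_combination -hcon
    have h2 : ‖conj γ * h z‖ < 1 := by
      rw [norm_mul, RCLike.norm_conj]
      have := hb z hz
      have := norm_nonneg (h z)
      nlinarith [norm_nonneg γ]
    rw [h1, norm_one] at h2
    exact lt_irrefl _ h2
  set F : ℂ → ℂ := fun z => (h z - γ) / (1 - conj γ * h z) with hF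
  have hFd : DifferentiableOn ℂ F (ball 0 1) := by
    refine DifferentiableOn.div (hd.sub (differentiableOn_const _))
      ((differentiableOn_const _).sub ((differentiableOn_const _).mul hd)) (fun z hz => ?_)
    exact hne z (by simpa using hz)
  have hF0 : F 0 = 0 := by simp [hF, h0]
  have hFb : ∀ z : ℂ, ‖z‖ < 1 → ‖F z‖ ≤ 1 := by
    intro z hz
    have h1 := hne z hz
    have h2 : 0 < ‖1 - conj γ * h z‖ := norm_pos_iff.2 h1
    simp only [hF]
    rw [norm_div, div_le_one h2, ← abs_norm, ← abs_norm (1 - conj γ * h z), ← sq_le_sq,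
      ← Complex.normSq_eq_norm_sq, ← Complex.normSq_eq_norm_sq, Complex.normSq_apply,
      Complex.normSq_apply]
    have h3 : ‖h z‖ ^ 2 ≤ 1 := pow_le_one₀ (norm_nonneg _) (hb z hz)
    have h4 : ‖γ‖ ^ 2 ≤ 1 := pow_le_one₀ (norm_nonneg _) hγ.le
    rw [← Complex.normSq_eq_norm_sq, Complex.normSq_apply] at h3 h4
    have h5 : 0 ≤ (1 - (γ.re * γ.re + γ.im * γ.im)) *
        (1 - ((h z).re * (h z).re + (h z).im * (h z).im)) :=
      mul_nonneg (by linarith) (by linarith)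
    simp
    nlinarith [h5]
  have hmaps : MapsTo F (ball 0 1) (closedBall (F 0) 1) := by
    intro z hz
    rw [hF0, mem_closedBall_zero_iff]
    exact hFb z (by simpa using hz)
  refine ⟨dslope F 0, ?_, ?_, ?_⟩
  · exact (differentiableOn_dslope (ball_mem_nhds (0 : ℂ) one_pos)).2 hFd
  · intro z hz
    have := norm_dslope_le_div_of_mapsTo_ball hFd hmaps (z := z) (by simpa using hz)
    simpa using this
  · intro z hz
    have h1 : z * dslope F 0 z = F z := by
      have := sub_smul_dslope F 0 z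
      rw [sub_zero, smul_eq_mul, hF0, sub_zero] at this
      exact this
    have h2 := hne z hz
    have h3 : F z * (1 - conj γ * h z) = h z - γ := by
      simp only [hF]
      rw [div_mul_cancel₀ _ h2]
    rw [mul_assoc, h1]
    linear_combination -h3

lemma tc_succ {f p : ℂ → ℂ} (hp : DifferentiableOn ℂ p (ball 0 1)) (c : ℂ)
    (h : ∀ z : ℂ, ‖z‖ < 1 → f z = c + z * p z) (n : ℕ) : tc f (n + 1) = tc p n := by
  have := tc_eq (f := f) (c := fun n => if n = 0 then c else tc p (n - 1)) (fun z hz => ?_) (n + 1)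
  · rw [this, if_neg (by omega), Nat.add_sub_cancel]
  · rw [h z hz]
    have h1 := (tc_hasSum hp hz).mul_left z
    have h3 : HasSum (fun n => (if n + 1 = 0 then c else tc p (n + 1 - 1)) * z ^ (n + 1))
        (z * p z) := by
      refine h1.congr_fun (fun n => ?_)
      rw [if_neg (by omega), Nat.add_sub_cancel, pow_succ]
      ring
    have h2 := (hasSum_nat_add_iff (f := fun n => (if n = 0 then c else tc p (n - 1)) * z ^ n)
      1).1 h3
    rw [Finset.sum_range_one, if_pos rfl, pow_zero, mul_one] at h2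
    rw [add_comm c]
    exact h2

lemma tc_one (p : ℂ → ℂ) : tc p 1 = deriv p 0 := by
  simp [tc, iteratedDeriv_one]

/-- Data given by two steps of the Schur algorithm. -/
structure SData (f : ℂ → ℂ) (l : ℝ) (α β : ℂ) (k : ℂ → ℂ) : Prop where
  diff : DifferentiableOn ℂ k (ball 0 1)
  bound : ∀ z : ℂ, ‖z‖ < 1 → ‖k z‖ ≤ 1
  zero : k 0 = β
  eq : ∀ z : ℂ, ‖z‖ < 1 → f z * ((1 + conj α * z * k z) + l * z * (α + z * k z)) =
    l * (1 + conj α * z * k z) + z * (α + z * k z)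
  lower : ∀ z : ℂ, ‖z‖ < 1 → (1 - ‖α‖) * (1 - l) ≤
    ‖(1 + conj α * z * k z) + l * z * (α + z * k z)‖

theorem exists_sdata {l : ℝ} (hl0 : 0 ≤ l) (hl1 : l < 1) {f : ℂ → ℂ} (hf : f ∈ FClass l)
    {α β : ℂ} (hα : tc f 1 = (1 - (l : ℂ) ^ 2) * α) (hα1 : ‖α‖ < 1)
    (hβ : tc f 2 = (1 - (l : ℂ) ^ 2) * ((1 - (‖α‖ : ℂ) ^ 2) * β - l * α ^ 2)) :
    ∃ k : ℂ → ℂ, SData f l α β k := by
  obtain ⟨hfd, hfb, hf0⟩ := hf
  have hll : ‖(l : ℂ)‖ < 1 := by
    rw [Complex.norm_real, Real.norm_eq_abs, abs_of_nonneg hl0]; exact hl1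
  obtain ⟨φ, hφd, hφb, hφ⟩ := schur_step hfd (fun z hz => (hfb z (by simpa using hz)).le) hf0 hll
  rw [Complex.conj_ofReal] at hφ
  have hl2 : (1 - (l : ℂ) ^ 2) ≠ 0 := by
    have : (1 - (l : ℂ) ^ 2) = ((1 - l ^ 2 : ℝ) : ℂ) := by push_cast; ring
    rw [this]
    exact_mod_cast (by nlinarith : (1 : ℝ) - l ^ 2 ≠ 0)
  have hlow : ∀ z : ℂ, ‖z‖ < 1 → 1 - l ≤ ‖1 + (l : ℂ) * z * φ z‖ := by
    intro z hz
    have h1 : ‖(l : ℂ) * z * φ z‖ ≤ l := by
      rw [norm_mul, norm_mul, Complex.norm_real, Real.norm_eq_abs, abs_of_nonneg hl0]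
      have := hφb z hz
      have h2 : l * ‖z‖ ≤ l * 1 := mul_le_mul_of_nonneg_left hz.le hl0
      calc l * ‖z‖ * ‖φ z‖ ≤ l * 1 * 1 :=
            mul_le_mul h2 this (norm_nonneg _) (by linarith)
        _ = l := by ring
    have h3 := norm_sub_norm_le (1 : ℂ) (-((l : ℂ) * z * φ z))
    rw [norm_one, norm_neg, sub_neg_eq_add] at h3
    linarith
  have hne : ∀ z : ℂ, ‖z‖ < 1 → 1 + (l : ℂ) * z * φ z ≠ 0 := by
    intro z hz
    have := hlow z hz
    exact norm_pos_iff.1 (by linarith)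
  set p : ℂ → ℂ := fun z => (1 - (l : ℂ) ^ 2) * φ z / (1 + l * z * φ z) with hp
  have hpd : DifferentiableOn ℂ p (ball 0 1) := by
    refine DifferentiableOn.div ((differentiableOn_const _).mul hφd)
      ((differentiableOn_const _).add (((differentiableOn_const _).mul differentiableOn_id).mul
        hφd)) (fun z hz => hne z (by simpa using hz))
  have hfp : ∀ z : ℂ, ‖z‖ < 1 → f z = l + z * p z := by
    intro z hz
    have h1 := hne z hz
    have h2 : f z = (l + z * φ z) / (1 + l * z * φ z) := by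
      rw [eq_div_iff h1]; exact hφ z hz
    rw [h2, hp]
    field_simp
    ring
  have hα' : φ 0 = α := by
    have h1 := tc_succ hpd l hfp 0
    rw [tc_zero, zero_add, hα] at h1
    simp only [hp, mul_zero, zero_mul, add_zero, div_one] at h1
    exact (mul_left_cancel₀ hl2 h1).symm
  have hφdiff : DifferentiableAt ℂ φ 0 := hφd.differentiableAt (ball_mem_nhds (0 : ℂ) one_pos)
  have hp' : deriv p 0 = (1 - (l : ℂ) ^ 2) * (deriv φ 0 - l * α ^ 2) := by
    have h1 : HasDerivAt (fun z : ℂ => (1 - (l : ℂ) ^ 2) * φ z) ((1 - (l : ℂ) ^ 2) * deriv φ 0) 0 :=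
      hφdiff.hasDerivAt.const_mul _
    have h2 : HasDerivAt (fun z : ℂ => 1 + (l : ℂ) * z * φ z)
        ((l : ℂ) * 1 * φ 0 + l * 0 * deriv φ 0) 0 :=
      (((hasDerivAt_id (0 : ℂ)).const_mul (l : ℂ)).mul hφdiff.hasDerivAt).const_add 1
    have h3 := h1.div h2 (hne 0 (by simp))
    have h4 := h3.deriv
    rw [hp]
    rw [show (fun z => (1 - (l : ℂ) ^ 2) * φ z / (1 + ↑l * z * φ z)) =
      (fun z : ℂ => (1 - (l : ℂ) ^ 2) * φ z) / fun z : ℂ => 1 + (l : ℂ) * z * φ z from rfl, h4]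
    simp only [hα']
    simp
    ring
  have hφ'' : deriv φ 0 = (1 - (‖α‖ : ℂ) ^ 2) * β := by
    have h1 := tc_succ hpd l hfp 1
    rw [tc_one, hp', show 1 + 1 = 2 from rfl, hβ] at h1
    have h2 := mul_left_cancel₀ hl2 h1
    linear_combination -h2
  obtain ⟨k, hkd, hkb, hk⟩ := schur_step hφd hφb hα' hα1
  have hk0 : k 0 = β := by
    have hkdiff : DifferentiableAt ℂ k 0 := hkd.differentiableAt (ball_mem_nhds (0 : ℂ) one_pos)
    have h1 : HasDerivAt (fun z : ℂ => φ z * (1 + conj α * z * k z))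
        (deriv φ 0 * (1 + conj α * 0 * k 0) +
          φ 0 * (conj α * 1 * k 0 + conj α * 0 * deriv k 0)) 0 :=
      hφdiff.hasDerivAt.mul
        ((((hasDerivAt_id (0 : ℂ)).const_mul (conj α)).mul hkdiff.hasDerivAt).const_add 1)
    have h2 : HasDerivAt (fun z : ℂ => α + z * k z) (1 * k 0 + 0 * deriv k 0) 0 :=
      ((hasDerivAt_id (0 : ℂ)).mul hkdiff.hasDerivAt).const_add α
    have h3 : (fun z : ℂ => φ z * (1 + conj α * z * k z)) =ᶠ[nhds 0] fun z : ℂ => α + z * k z := by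
      filter_upwards [ball_mem_nhds (0 : ℂ) one_pos] with z hz
      exact hk z (by simpa using hz)
    have h4 := (h1.congr_of_eventuallyEq h3.symm).unique h2
    rw [hα', hφ''] at h4
    have h5 : α * conj α = (‖α‖ : ℂ) ^ 2 := by
      rw [Complex.mul_conj, Complex.normSq_eq_norm_sq]; push_cast; ring
    have h6 : (1 - (‖α‖ : ℂ) ^ 2) ≠ 0 := by
      have : (1 - (‖α‖ : ℂ) ^ 2) = ((1 - ‖α‖ ^ 2 : ℝ) : ℂ) := by push_cast; ring
      rw [this]
      have h7 := norm_nonneg α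
      exact_mod_cast (by nlinarith : (1 : ℝ) - ‖α‖ ^ 2 ≠ 0)
    refine mul_left_cancel₀ h6 ?_
    linear_combination (k 0) * h5 - h4
  have hkne : ∀ z : ℂ, ‖z‖ < 1 → 1 - ‖α‖ ≤ ‖1 + conj α * z * k z‖ := by
    intro z hz
    have h1 : ‖conj α * z * k z‖ ≤ ‖α‖ := by
      rw [norm_mul, norm_mul, RCLike.norm_conj]
      have := hkb z hz
      have h2 : ‖α‖ * ‖z‖ ≤ ‖α‖ * 1 := mul_le_mul_of_nonneg_left hz.le (norm_nonneg _)
      calc ‖α‖ * ‖z‖ * ‖k z‖ ≤ ‖α‖ * 1 * 1 :=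
            mul_le_mul h2 this (norm_nonneg _) (by have := norm_nonneg α; linarith)
        _ = ‖α‖ := by ring
    have h3 := norm_sub_norm_le (1 : ℂ) (-(conj α * z * k z))
    rw [norm_one, norm_neg, sub_neg_eq_add] at h3
    linarith
  have hDfac : ∀ z : ℂ, ‖z‖ < 1 → (1 + conj α * z * k z) + l * z * (α + z * k z) =
      (1 + conj α * z * k z) * (1 + l * z * φ z) := by
    intro z hz
    linear_combination (-(l : ℂ) * z) * hk z hz
  refine ⟨k, hkd, hkb, hk0, fun z hz => ?_, fun z hz => ?_⟩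
  · rw [hDfac z hz]
    linear_combination (1 + conj α * z * k z) * hφ z hz + z * hk z hz
  · rw [hDfac z hz, norm_mul]
    exact mul_le_mul (hkne z hz) (hlow z hz) (by linarith) (norm_nonneg _)

end Pool.Agent.P187s
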