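import Mathlib
import Pool.Agent.Lib.P187f6b.Bounds
import Pool.Agent.Lib.P187f6b.Defs
import Pool.Agent.Lib.P187o.Func
import Pool.Agent.Lib.P187o.UpperFun

/-!
# The two parameter family of Blaschke products of degree two
-/

set_option autoImplicit false

open Complex Metric Set
open scoped ComplexConjugate
open Pool.Agent.P187f6b Pool.Agent.P187o

namespace Pool.Agent.P187s

/-- The Blaschke product `z (a - z) / (1 - a z)`. -/
noncomputable def QA (a : ℝ) (z : ℂ) : ℂ := z * (a - z) / (1 - a * z)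

/-- The family `(l + η Q) / (1 + l η Q)` with `Q = z (a - z) / (1 - a z)`. -/
noncomputable def GG (l a : ℝ) (η : ℂ) (z : ℂ) : ℂ :=
  (l + η * (z * (a - z) / (1 - a * z))) / (1 + l * (η * (z * (a - z) / (1 - a * z))))

lemma GG_eq (l a : ℝ) (η : ℂ) (z : ℂ) :
    GG l a η z = (l + η * QA a z) / (1 + l * (η * QA a z)) := rfl

lemma QQ_eq_QA : QQ = QA nu := rfl

variable {l a : ℝ} {η z : ℂ}

lemma den_lower (h0 : 0 ≤ a) (hz : ‖z‖ < 1) : 1 - a ≤ ‖1 - (a : ℂ) * z‖ := by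
  have h1 : ‖(a : ℂ) * z‖ ≤ a := by
    rw [norm_mul, Complex.norm_real, Real.norm_eq_abs, abs_of_nonneg h0]
    nlinarith [norm_nonneg z]
  have h3 := norm_sub_norm_le (1 : ℂ) ((a : ℂ) * z)
  rw [norm_one] at h3
  linarith

lemma den_ne' (h0 : 0 ≤ a) (h1 : a < 1) (hz : ‖z‖ < 1) : 1 - (a : ℂ) * z ≠ 0 := by
  have := den_lower h0 hz
  exact norm_pos_iff.1 (by linarith)

lemma norm_QA_lt (h0 : 0 ≤ a) (h1 : a < 1) (hz : ‖z‖ < 1) : ‖QA a z‖ < 1 := by
  have h2 : ‖(a : ℂ) - z‖ ≤ ‖(1 : ℂ) - a * z‖ := by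
    rw [← abs_norm, ← abs_norm (1 - (a : ℂ) * z), ← sq_le_sq, ← Complex.normSq_eq_norm_sq,
      ← Complex.normSq_eq_norm_sq, Complex.normSq_apply, Complex.normSq_apply]
    have h3 : ‖z‖ ^ 2 < 1 := by
      have := norm_nonneg z
      nlinarith
    rw [← Complex.normSq_eq_norm_sq, Complex.normSq_apply] at h3
    have h4 : 0 ≤ (1 - a ^ 2) * (1 - (z.re * z.re + z.im * z.im)) :=
      mul_nonneg (by nlinarith) (by linarith)
    simp
    nlinarith [h4]
  have h3 : 0 < ‖(1 : ℂ) - a * z‖ := norm_pos_iff.2 (den_ne' h0 h1 hz)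
  unfold QA
  rw [norm_div, norm_mul, div_lt_one h3]
  have h4 := norm_nonneg z
  nlinarith [norm_nonneg ((a : ℂ) - z)]

lemma norm_psi (hη : ‖η‖ = 1) (h0 : 0 ≤ a) (h1 : a < 1) (hz : ‖z‖ < 1) : ‖η * QA a z‖ < 1 := by
  rw [norm_mul, hη, one_mul]
  exact norm_QA_lt h0 h1 hz

lemma den2_lower (hl : 0 ≤ l) {w : ℂ} (hw : ‖w‖ < 1) : 1 - l ≤ ‖1 + (l : ℂ) * w‖ := by
  have h2 : ‖(l : ℂ) * w‖ ≤ l := by
    rw [norm_mul, Complex.norm_real, Real.norm_eq_abs, abs_of_nonneg hl]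
    nlinarith [norm_nonneg w]
  have h3 := norm_sub_norm_le (1 : ℂ) (-((l : ℂ) * w))
  rw [norm_one, norm_neg, sub_neg_eq_add] at h3
  linarith

lemma diff_QA (h0 : 0 ≤ a) (h1 : a < 1) : DifferentiableOn ℂ (QA a) (ball 0 1) := by
  unfold QA
  refine DifferentiableOn.div (by fun_prop) (by fun_prop) (fun z hz => ?_)
  exact den_ne' h0 h1 (by simpa using hz)

lemma diff_GG (hl : 0 ≤ l) (hl1 : l < 1) (hη : ‖η‖ = 1) (h0 : 0 ≤ a) (h1 : a < 1) :
    DifferentiableOn ℂ (GG l a η) (ball 0 1) := by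
  have hQ := diff_QA h0 h1
  have e : GG l a η = fun z => (l + η * QA a z) / (1 + l * (η * QA a z)) := rfl
  rw [e]
  refine DifferentiableOn.div ?_ ?_ (fun z hz => ?_)
  · exact (differentiableOn_const _).add ((differentiableOn_const _).mul hQ)
  · exact (differentiableOn_const _).add ((differentiableOn_const _).mul
      ((differentiableOn_const _).mul hQ))
  · have := den2_lower hl (norm_psi hη h0 h1 (z := z) (by simpa using hz))
    exact norm_pos_iff.1 (by linarith)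

lemma GG_mem (hl : 0 ≤ l) (hl1 : l < 1) (hη : ‖η‖ = 1) (h0 : 0 ≤ a) (h1 : a < 1) :
    GG l a η ∈ FClass l := by
  refine ⟨diff_GG hl hl1 hη h0 h1, fun z hz => ?_, ?_⟩
  · have hz' : ‖z‖ < 1 := by simpa using hz
    have hw := norm_psi hη h0 h1 hz'
    have hd := den2_lower hl hw
    rw [GG_eq]
    set w := η * QA a z
    rw [norm_div, div_lt_one (by linarith)]
    rw [← abs_norm, ← abs_norm (1 + (l : ℂ) * w), ← sq_lt_sq, ← Complex.normSq_eq_norm_sq,
      ← Complex.normSq_eq_norm_sq, Complex.normSq_apply, Complex.normSq_apply]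
    have h2 : ‖w‖ ^ 2 < 1 := by
      have := norm_nonneg w
      nlinarith
    rw [← Complex.normSq_eq_norm_sq, Complex.normSq_apply] at h2
    have h5 : 0 < (1 - l ^ 2) * (1 - (w.re * w.re + w.im * w.im)) :=
      mul_pos (by nlinarith) (by linarith)
    simp
    nlinarith [h5]
  · simp [GG]

/-- Cauchy estimate. -/
lemma tc_bound {H : ℂ → ℂ} (hd : DifferentiableOn ℂ H (ball 0 1)) {ρ C : ℝ} (h0 : 0 ≤ ρ)
    (h1 : ρ < 1) (hC0 : 0 ≤ C) (hC : ∀ z : ℂ, ‖z‖ = ρ → ‖H z‖ ≤ C) (n : ℕ) :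
    ‖tc H n‖ * ρ ^ n ≤ C := by
  have h2 := parseval_fun hd h0 h1
  have h3 : ∫ θ in (0 : ℝ)..2 * Real.pi, ‖H (ρ * cexp (θ * I))‖ ^ 2 ≤
      ∫ θ in (0 : ℝ)..2 * Real.pi, C ^ 2 := by
    refine intervalIntegral.integral_mono_on (by positivity) ?_ ?_ ?_
    · exact ((continuous_circ hd h0 h1).norm.pow 2).intervalIntegrable _ _
    · exact intervalIntegrable_const
    · intro θ _
      exact pow_le_pow_left₀ (norm_nonneg _) (hC _ (norm_circ h0 θ)) 2
  rw [intervalIntegral.integral_const, sub_zero, smul_eq_mul] at h3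
  have h4 : (2 * Real.pi)⁻¹ * ∫ θ in (0 : ℝ)..2 * Real.pi, ‖H (ρ * cexp (θ * I))‖ ^ 2 ≤
      C ^ 2 := by
    rw [inv_mul_le_iff₀ (by positivity)]
    exact h3
  have h5 : ‖tc H n‖ ^ 2 * ρ ^ (2 * n) ≤ C ^ 2 := by
    refine le_trans ?_ h4
    rw [← h2.tsum_eq]
    exact h2.summable.le_tsum n (fun _ _ => by positivity)
  refine le_of_sq_le_sq ?_ hC0
  rw [mul_pow, ← pow_mul, mul_comm n 2]
  exact h5

/-- Comparison of moduli through a reference phase. -/
lemma phase {u v v0 : ℂ} {x : ℝ} (hv0 : v0 ≠ 0) (hx : ‖v - v0‖ ≤ x * ‖v0‖) :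
    ‖v‖ - ‖u‖ ≤ (conj v0 / (‖v0‖ : ℂ) * (v - u)).re + 2 * ‖v - u‖ * √x := by
  have hn0 : 0 < ‖v0‖ := norm_pos_iff.2 hv0
  have hx0 : 0 ≤ x := by
    by_contra hcon
    rw [not_le] at hcon
    have := norm_nonneg (v - v0)
    nlinarith
  have hc : ‖conj v0 / (‖v0‖ : ℂ)‖ = 1 := by
    rw [norm_div, RCLike.norm_conj, Complex.norm_real, norm_norm, div_self hn0.ne']
  rcases eq_or_ne v 0 with h | h
  · subst h
    rw [zero_sub, norm_neg] at hx
    have h1 : 1 ≤ x := by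
      by_contra hcon
      rw [not_le] at hcon
      nlinarith
    have h2 : 1 ≤ √x := by
      rw [Real.one_le_sqrt]; exact h1
    have h3 := Complex.abs_re_le_norm (conj v0 / (‖v0‖ : ℂ) * (0 - u))
    rw [norm_mul, hc, one_mul, zero_sub, norm_neg] at h3
    rw [zero_sub, norm_neg, norm_zero]
    have h4 := neg_abs_le ((conj v0 / (‖v0‖ : ℂ) * -u).re)
    have h5 := norm_nonneg u
    nlinarith
  · have hn : 0 < ‖v‖ := norm_pos_iff.2 h
    have hcv : ‖conj v / (‖v‖ : ℂ)‖ = 1 := by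
      rw [norm_div, RCLike.norm_conj, Complex.norm_real, norm_norm, div_self hn.ne']
    have h1 : (conj v / (‖v‖ : ℂ) * v).re = ‖v‖ := by
      have h3 : (‖v‖ : ℂ) ≠ 0 := by exact_mod_cast hn.ne'
      have : conj v / (‖v‖ : ℂ) * v = (‖v‖ : ℂ) := by
        rw [div_mul_eq_mul_div, mul_comm (conj v) v, Complex.mul_conj, Complex.normSq_eq_norm_sq,
          div_eq_iff h3]
        push_cast
        ring
      rw [this, Complex.ofReal_re]
    have h2 : (conj v / (‖v‖ : ℂ) * u).re ≤ ‖u‖ := by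
      refine (Complex.re_le_norm _).trans ?_
      rw [norm_mul, hcv, one_mul]
    have h3 : ‖v‖ - ‖u‖ ≤ (conj v / (‖v‖ : ℂ) * (v - u)).re := by
      rw [mul_sub, Complex.sub_re]
      linarith
    have h4 : ‖conj v / (‖v‖ : ℂ) - conj v0 / (‖v0‖ : ℂ)‖ ≤ 2 * √x := by
      rcases le_or_gt x 1 with hx1 | hx1
      · have h5 : conj v / (‖v‖ : ℂ) - conj v0 / (‖v0‖ : ℂ) =
            (conj v * ((‖v0‖ - ‖v‖ : ℝ) : ℂ) + (‖v‖ : ℂ) * conj (v - v0)) /
              ((‖v‖ : ℂ) * (‖v0‖ : ℂ)) := by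
          have h6 : (‖v‖ : ℂ) ≠ 0 := by exact_mod_cast hn.ne'
          have h7 : (‖v0‖ : ℂ) ≠ 0 := by exact_mod_cast hn0.ne'
          rw [map_sub]
          field_simp
          push_cast
          ring
        have h8 : ‖conj v * ((‖v0‖ - ‖v‖ : ℝ) : ℂ) + (‖v‖ : ℂ) * conj (v - v0)‖ ≤
            2 * ‖v‖ * ‖v - v0‖ := by
          refine (norm_add_le _ _).trans ?_
          rw [norm_mul, norm_mul, RCLike.norm_conj, RCLike.norm_conj, Complex.norm_real,
            Complex.norm_real, norm_norm, Real.norm_eq_abs]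
          have h9 : |‖v0‖ - ‖v‖| ≤ ‖v - v0‖ := by
            rw [abs_sub_comm]; exact abs_norm_sub_norm_le v v0
          nlinarith
        rw [h5, norm_div, norm_mul, Complex.norm_real, Complex.norm_real, norm_norm, norm_norm,
          div_le_iff₀ (by positivity)]
        have h10 : x ≤ √x := by
          have := Real.sqrt_nonneg x
          have h11 := Real.sq_sqrt hx0
          have h12 : √x ≤ 1 := by rw [Real.sqrt_le_one]; exact hx1
          nlinarith
        have h13 : ‖v - v0‖ ≤ √x * ‖v0‖ :=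
          hx.trans (mul_le_mul_of_nonneg_right h10 hn0.le)
        nlinarith
      · have h5 : 1 ≤ √x := by
          rw [Real.one_le_sqrt]; exact hx1.le
        have h6 := norm_sub_le (conj v / (‖v‖ : ℂ)) (conj v0 / (‖v0‖ : ℂ))
        rw [hcv, hc] at h6
        linarith
    have h5 : (conj v / (‖v‖ : ℂ) * (v - u)).re ≤ (conj v0 / (‖v0‖ : ℂ) * (v - u)).re +
        ‖conj v / (‖v‖ : ℂ) - conj v0 / (‖v0‖ : ℂ)‖ * ‖v - u‖ := by
      have h6 := Complex.re_le_norm ((conj v / (‖v‖ : ℂ) - conj v0 / (‖v0‖ : ℂ)) * (v - u))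
      rw [norm_mul, sub_mul, Complex.sub_re] at h6
      linarith
    have h6 := mul_le_mul_of_nonneg_right h4 (norm_nonneg (v - u))
    linarith

end Pool.Agent.P187s
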