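import Mathlib

/-!
# The Harnack inequalities for functions with nonnegative real part
-/

set_option autoImplicit false

open Complex Metric Set
open scoped ComplexConjugate

namespace Pool.Agent.P187s

lemma harnack_pos {E : ℂ → ℂ} (hd : DifferentiableOn ℂ E (ball 0 1))
    (hre : ∀ z : ℂ, ‖z‖ < 1 → 0 ≤ (E z).re) {ε : ℝ} (h0 : E 0 = (ε : ℂ)) (hε : 0 < ε)
    {z : ℂ} (hz : ‖z‖ < 1) :
    (1 - ‖z‖) * ‖E z‖ ≤ ε * (1 + ‖z‖) ∧ ε * (1 - ‖z‖) ≤ (1 + ‖z‖) * (E z).re := by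
  have hne : ∀ z : ℂ, ‖z‖ < 1 → E z + ε ≠ 0 := by
    intro z hz hcon
    have h1 := congrArg Complex.re hcon
    rw [Complex.add_re, Complex.ofReal_re, Complex.zero_re] at h1
    have := hre z hz
    linarith
  set h : ℂ → ℂ := fun z => (E z - ε) / (E z + ε) with hh
  have hhd : DifferentiableOn ℂ h (ball 0 1) := by
    refine DifferentiableOn.div (hd.sub (differentiableOn_const _))
      (hd.add (differentiableOn_const _)) (fun z hz => ?_)
    exact hne z (by simpa using hz)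
  have hh0 : h 0 = 0 := by simp [hh, h0]
  have hmaps : MapsTo h (ball 0 1) (closedBall (h 0) 1) := by
    intro z hz
    have hz' : ‖z‖ < 1 := by simpa using hz
    rw [hh0, mem_closedBall_zero_iff]
    simp only [hh]
    rw [norm_div, div_le_one (norm_pos_iff.2 (hne z hz')), ← abs_norm, ← abs_norm (E z + ε),
      ← sq_le_sq, ← Complex.normSq_eq_norm_sq, ← Complex.normSq_eq_norm_sq, Complex.normSq_apply,
      Complex.normSq_apply]
    have := mul_nonneg (hre z hz') hε.le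
    simp
    nlinarith
  have hw := dist_le_div_mul_dist_of_mapsTo_ball hhd hmaps (z := z) (by simpa using hz)
  rw [hh0, dist_zero_right, dist_zero_right, div_one, one_mul] at hw
  set w := h z with hwdef
  have hE : E z * (1 - w) = ε * (1 + w) := by
    have h1 := hne z hz
    rw [hwdef, hh]
    simp only
    field_simp
    ring
  have hρ := norm_nonneg z
  have hw0 := norm_nonneg w
  constructor
  · have h1 : ‖E z‖ * ‖1 - w‖ = ε * ‖1 + w‖ := by
      rw [← norm_mul, hE, norm_mul, Complex.norm_real, Real.norm_eq_abs, abs_of_pos hε]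
    have h2 : 1 - ‖w‖ ≤ ‖1 - w‖ := by
      have := norm_sub_norm_le (1 : ℂ) w
      rwa [norm_one] at this
    have h3 : ‖1 + w‖ ≤ 1 + ‖w‖ := by
      have := norm_add_le (1 : ℂ) w
      rwa [norm_one] at this
    have h4 := norm_nonneg (E z)
    calc (1 - ‖z‖) * ‖E z‖ ≤ ‖1 - w‖ * ‖E z‖ := mul_le_mul_of_nonneg_right (by linarith) h4
      _ = ε * ‖1 + w‖ := by rw [mul_comm, h1]
      _ ≤ ε * (1 + ‖z‖) := mul_le_mul_of_nonneg_left (by linarith) hε.le
  · have h1 : (E z).re * ‖1 - w‖ ^ 2 = ε * (1 - ‖w‖ ^ 2) := by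
      have h2 : E z * ((1 - w) * conj (1 - w)) = ε * ((1 + w) * conj (1 - w)) := by
        rw [← mul_assoc, hE, mul_assoc]
      rw [Complex.mul_conj, Complex.normSq_eq_norm_sq] at h2
      have h3 := congrArg Complex.re h2
      rw [Complex.re_mul_ofReal, Complex.re_ofReal_mul] at h3
      rw [h3]
      congr 1
      rw [← Complex.normSq_eq_norm_sq, Complex.normSq_apply]
      simp
      ring
    have h3 : ‖1 - w‖ ≤ 1 + ‖w‖ := by
      have := norm_sub_le (1 : ℂ) w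
      rwa [norm_one] at this
    have h4 := hre z hz
    have h5 : ε * (1 - ‖w‖ ^ 2) ≤ (E z).re * (1 + ‖w‖) ^ 2 := by
      rw [← h1]
      exact mul_le_mul_of_nonneg_left (pow_le_pow_left₀ (norm_nonneg _) h3 2) h4
    have h6 : ε * (1 - ‖w‖) ≤ (E z).re * (1 + ‖w‖) := by
      have h7 : ε * (1 - ‖w‖) * (1 + ‖w‖) ≤ (E z).re * (1 + ‖w‖) * (1 + ‖w‖) := by
        nlinarith
      exact le_of_mul_le_mul_right h7 (by linarith)
    calc ε * (1 - ‖z‖) ≤ ε * (1 - ‖w‖) := mul_le_mul_of_nonneg_left (by linarith) hε.le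
      _ ≤ (E z).re * (1 + ‖w‖) := h6
      _ ≤ (E z).re * (1 + ‖z‖) := mul_le_mul_of_nonneg_left (by linarith) h4
      _ = (1 + ‖z‖) * (E z).re := mul_comm _ _

lemma harnack {E : ℂ → ℂ} (hd : DifferentiableOn ℂ E (ball 0 1))
    (hre : ∀ z : ℂ, ‖z‖ < 1 → 0 ≤ (E z).re) {ε : ℝ} (h0 : E 0 = (ε : ℂ)) (hε : 0 ≤ ε)
    {z : ℂ} (hz : ‖z‖ < 1) :
    (1 - ‖z‖) * ‖E z‖ ≤ ε * (1 + ‖z‖) ∧ ε * (1 - ‖z‖) ≤ (1 + ‖z‖) * (E z).re := by
  have hρ := norm_nonneg z
  have key : ∀ δ : ℝ, 0 < δ → (1 - ‖z‖) * ‖E z + δ‖ ≤ (ε + δ) * (1 + ‖z‖) ∧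
      (ε + δ) * (1 - ‖z‖) ≤ (1 + ‖z‖) * (E z + δ).re := by
    intro δ hδ
    refine harnack_pos (E := fun z => E z + δ) (hd.add (differentiableOn_const _))
      (fun w hw => ?_) (ε := ε + δ) ?_ (by linarith) hz
    · have := hre w hw
      simp
      linarith
    · rw [h0]; push_cast; ring
  constructor
  · refine le_of_forall_pos_le_add (fun δ hδ => ?_)
    have h1 := (key (δ / 2) (by linarith)).1
    have h2 : ‖E z‖ ≤ ‖E z + (δ / 2 : ℝ)‖ + δ / 2 := by
      have := norm_sub_le (E z + (δ / 2 : ℝ)) ((δ / 2 : ℝ) : ℂ)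
      rw [add_sub_cancel_right, Complex.norm_real, Real.norm_eq_abs,
        abs_of_pos (by linarith : 0 < δ / 2)] at this
      exact this
    have h3 : (1 - ‖z‖) * ‖E z‖ ≤ (1 - ‖z‖) * (‖E z + (δ / 2 : ℝ)‖ + δ / 2) :=
      mul_le_mul_of_nonneg_left h2 (by linarith)
    nlinarith
  · refine le_of_forall_pos_le_add (fun δ hδ => ?_)
    have h1 := (key (δ / 2) (by linarith)).2
    rw [Complex.add_re, Complex.ofReal_re] at h1
    nlinarith

end Pool.Agent.P187s
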