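import Mathlib
import Pool.Agent.Lib.P187s.Schur
import Pool.Agent.Lib.P187s.Harnack
import Pool.Agent.Lib.P187s.Family

/-!
# The difference between a function and its comparison function
-/

set_option autoImplicit false

open Complex Metric Set
open scoped ComplexConjugate
open Pool.Agent.P187f6b Pool.Agent.P187o

namespace Pool.Agent.P187s

/-- The comparison situation. -/
structure Cmp (f : ℂ → ℂ) (l a ε : ℝ) (η : ℂ) (k : ℂ → ℂ) : Prop where
  l_pos : 0 < l
  l_small : l ≤ 1 / 10 ^ 16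
  mem : f ∈ FClass l
  norm_eta : ‖η‖ = 1
  ha : |a - nu| ≤ 7 * l
  eps0 : 0 ≤ ε
  eps1 : ε ≤ 34 * l
  sd : SData f l (η * a) (-(η * (1 - ε))) k

namespace Cmp

variable {f k : ℂ → ℂ} {l a ε : ℝ} {η : ℂ}

lemma etaeta (h : Cmp f l a ε η k) : conj η * η = 1 := by
  rw [mul_comm, Complex.mul_conj, Complex.normSq_eq_norm_sq, h.norm_eta]
  norm_num

lemma a_lo (h : Cmp f l a ε η k) : 0.707 ≤ a := by
  have h1 := abs_le.1 h.ha
  have h2 := h.l_small
  have h3 := lt_nu
  norm_num at h2 ⊢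
  linarith [h1.1]

lemma a_hi (h : Cmp f l a ε η k) : a ≤ 0.7073 := by
  have h1 := abs_le.1 h.ha
  have h2 := h.l_small
  have h3 := nu_lt
  norm_num at h2 ⊢
  linarith [h1.2]

/-- The Caratheodory function measuring the distance to the comparison function. -/
noncomputable def EE (η : ℂ) (k : ℂ → ℂ) (z : ℂ) : ℂ := 1 + conj η * k z

lemma EE_diff (h : Cmp f l a ε η k) : DifferentiableOn ℂ (EE η k) (ball 0 1) :=
  (differentiableOn_const _).add ((differentiableOn_const _).mul h.sd.diff)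

lemma EE_zero (h : Cmp f l a ε η k) : EE η k 0 = (ε : ℂ) := by
  unfold EE
  rw [h.sd.zero]
  linear_combination (-(1 - (ε : ℂ))) * h.etaeta

lemma EE_re (h : Cmp f l a ε η k) (z : ℂ) (hz : ‖z‖ < 1) : 0 ≤ (EE η k z).re := by
  unfold EE
  rw [Complex.add_re, Complex.one_re]
  have h1 := Complex.abs_re_le_norm (conj η * k z)
  rw [norm_mul, RCLike.norm_conj, h.norm_eta, one_mul] at h1
  have h2 := h.sd.bound z hz
  have h3 := neg_abs_le (conj η * k z).re
  linarith

lemma k_eq (h : Cmp f l a ε η k) (z : ℂ) : k z = η * (EE η k z - 1) := by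
  unfold EE
  linear_combination (-k z) * h.etaeta

/-- The denominator of the comparison function. -/
noncomputable def D0 (l a : ℝ) (η z : ℂ) : ℂ := (1 - a * z) + l * (η * (z * (a - z)))

/-- The denominator of the function. -/
noncomputable def D1 (l a : ℝ) (η z E : ℂ) : ℂ := D0 l a η z + (a * z + l * η * z ^ 2) * E

lemma D0_eq (h : Cmp f l a ε η k) {z : ℂ} (hz : ‖z‖ < 1) :
    D0 l a η z = (1 - a * z) * (1 + l * (η * QA a z)) := by
  have ha0 : 0 ≤ a := by linarith [h.a_lo]
  have ha1 : a < 1 := by linarith [h.a_hi]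
  have h1 := den_ne' ha0 ha1 hz
  unfold D0 QA
  field_simp

lemma D0_lower (h : Cmp f l a ε η k) {z : ℂ} (hz : ‖z‖ < 1) :
    (1 - a) * (1 - l) ≤ ‖D0 l a η z‖ := by
  have ha0 : 0 ≤ a := by linarith [h.a_lo]
  have ha1 : a < 1 := by linarith [h.a_hi]
  have hl : l ≤ 1 := h.l_small.trans (by norm_num)
  rw [h.D0_eq hz, norm_mul]
  exact mul_le_mul (den_lower ha0 hz)
    (den2_lower h.l_pos.le (norm_psi h.norm_eta ha0 ha1 hz)) (by linarith) (norm_nonneg _)

lemma D1_eq (h : Cmp f l a ε η k) (z : ℂ) :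
    D1 l a η z (EE η k z) =
      (1 + conj (η * a) * z * k z) + l * z * (η * a + z * k z) := by
  unfold D1 D0
  rw [h.k_eq z, map_mul, Complex.conj_ofReal]
  linear_combination (a * z * (1 - EE η k z)) * h.etaeta

lemma D1_lower (h : Cmp f l a ε η k) {z : ℂ} (hz : ‖z‖ < 1) :
    (1 - a) * (1 - l) ≤ ‖D1 l a η z (EE η k z)‖ := by
  have ha0 : 0 ≤ a := by linarith [h.a_lo]
  rw [h.D1_eq]
  have := h.sd.lower z hz
  rw [norm_mul, h.norm_eta, one_mul, Complex.norm_real, Real.norm_eq_abs, abs_of_nonneg ha0] at this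
  exact this

/-- The formula for the difference. -/
lemma diff_mul (h : Cmp f l a ε η k) {z : ℂ} (hz : ‖z‖ < 1) :
    (f z - GG l a η z) * (D1 l a η z (EE η k z) * D0 l a η z) =
      η * (1 - l ^ 2) * (1 - a ^ 2) * z ^ 2 * EE η k z := by
  have ha0 : 0 ≤ a := by linarith [h.a_lo]
  have ha1 : a < 1 := by linarith [h.a_hi]
  have hl1 : l < 1 := h.l_small.trans_lt (by norm_num)
  have h1 := den_ne' ha0 ha1 hz
  have h2 : 1 + l * (η * QA a z) ≠ 0 := by
    have := den2_lower h.l_pos.le (norm_psi h.norm_eta ha0 ha1 hz)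
    exact norm_pos_iff.1 (by linarith)
  have hG : GG l a η z * D0 l a η z = l * (1 - a * z) + η * (z * (a - z)) := by
    rw [h.D0_eq hz, GG_eq]
    have h3 : (1 - (a : ℂ) * z) * QA a z = z * (a - z) := by
      unfold QA
      field_simp
    have h4 : (l + η * QA a z) / (1 + l * (η * QA a z)) *
        ((1 - a * z) * (1 + l * (η * QA a z))) = (l + η * QA a z) * (1 - a * z) := by
      rw [div_mul_eq_mul_div, div_eq_iff h2]
      ring
    rw [h4]
    linear_combination η * h3
  have hF := h.sd.eq z hz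
  rw [← h.D1_eq z, map_mul, Complex.conj_ofReal, h.k_eq z] at hF
  have hF' : f z * D1 l a η z (EE η k z) =
      (l * (1 - a * z) + η * (z * (a - z))) + (a * l * z + η * z ^ 2) * EE η k z := by
    rw [hF]
    linear_combination (l * a * z * (EE η k z - 1)) * h.etaeta
  have e : (f z - GG l a η z) * (D1 l a η z (EE η k z) * D0 l a η z) =
      (f z * D1 l a η z (EE η k z)) * D0 l a η z -
        (GG l a η z * D0 l a η z) * D1 l a η z (EE η k z) := by ring
  rw [e, hF', hG]
  unfold D1 D0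
  ring

lemma D1_ne (h : Cmp f l a ε η k) {z : ℂ} (hz : ‖z‖ < 1) : D1 l a η z (EE η k z) ≠ 0 := by
  have h1 := h.D1_lower hz
  have ha1 : a < 1 := by linarith [h.a_hi]
  have hl1 : l < 1 := h.l_small.trans_lt (by norm_num)
  have : 0 < (1 - a) * (1 - l) := mul_pos (by linarith) (by linarith)
  exact norm_pos_iff.1 (by linarith)

lemma D0_ne (h : Cmp f l a ε η k) {z : ℂ} (hz : ‖z‖ < 1) : D0 l a η z ≠ 0 := by
  have h1 := h.D0_lower hz
  have ha1 : a < 1 := by linarith [h.a_hi]
  have hl1 : l < 1 := h.l_small.trans_lt (by norm_num)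
  have : 0 < (1 - a) * (1 - l) := mul_pos (by linarith) (by linarith)
  exact norm_pos_iff.1 (by linarith)

/-- If `ε = 0` the two functions agree. -/
lemma eq_of_eps (h : Cmp f l a ε η k) (he : ε = 0) {z : ℂ} (hz : ‖z‖ < 1) :
    f z = GG l a η z := by
  have h1 := (harnack h.EE_diff h.EE_re h.EE_zero h.eps0 hz).1
  rw [he, zero_mul] at h1
  have h2 : ‖EE η k z‖ = 0 := by
    have h3 := norm_nonneg (EE η k z)
    have h4 : 0 < 1 - ‖z‖ := by linarith
    nlinarith
  have h3 := h.diff_mul hz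
  rw [show η * (1 - (l : ℂ) ^ 2) * (1 - (a : ℂ) ^ 2) * z ^ 2 * EE η k z = 0 by
    rw [norm_eq_zero.1 h2, mul_zero]] at h3
  have h4 : f z - GG l a η z = 0 := by
    rcases mul_eq_zero.1 h3 with h5 | h5
    · exact h5
    · exact absurd h5 (mul_ne_zero (h.D1_ne hz) (h.D0_ne hz))
  exact sub_eq_zero.1 h4

/-- The difference function. -/
noncomputable def DL (f : ℂ → ℂ) (l a : ℝ) (η : ℂ) (z : ℂ) : ℂ := f z - GG l a η z

lemma DL_diff (h : Cmp f l a ε η k) : DifferentiableOn ℂ (DL f l a η) (ball 0 1) :=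
  h.mem.1.sub (diff_GG h.l_pos.le (h.l_small.trans_lt (by norm_num)) h.norm_eta
    (by linarith [h.a_lo]) (by linarith [h.a_hi]))

lemma tc_DL (h : Cmp f l a ε η k) (n : ℕ) :
    tc (DL f l a η) n = tc f n - tc (GG l a η) n := by
  refine tc_eq (c := fun n => tc f n - tc (GG l a η) n) (fun z hz => ?_) n
  have ha0 : 0 ≤ a := by linarith [h.a_lo]
  have ha1 : a < 1 := by linarith [h.a_hi]
  have h1 := tc_hasSum h.mem.1 hz
  have h2 := tc_hasSum (diff_GG h.l_pos.le (h.l_small.trans_lt (by norm_num)) h.norm_eta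
    ha0 ha1) hz
  have h3 := h1.sub h2
  have e : (fun n => tc f n * z ^ n - tc (GG l a η) n * z ^ n) =
      fun n => (tc f n - tc (GG l a η) n) * z ^ n := funext fun n => by ring
  rw [e] at h3
  exact h3

lemma tc_DL_zero_one (h : Cmp f l a ε η k) :
    tc (DL f l a η) 0 = 0 ∧ tc (DL f l a η) 1 = 0 := by
  set H : ℂ → ℂ := fun z => η * (1 - l ^ 2) * (1 - a ^ 2) * EE η k z /
    (D1 l a η z (EE η k z) * D0 l a η z) with hH
  have hE := h.EE_diff
  have hHd : DifferentiableOn ℂ H (ball 0 1) := by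
    refine DifferentiableOn.div ((differentiableOn_const _).mul hE) ?_ (fun z hz => ?_)
    · unfold D1 D0
      exact ((by fun_prop : DifferentiableOn ℂ (fun z : ℂ => (1 - (a : ℂ) * z) +
        l * (η * (z * (a - z)))) (ball 0 1)).add
        ((by fun_prop : DifferentiableOn ℂ (fun z : ℂ => (a : ℂ) * z + l * η * z ^ 2)
          (ball 0 1)).mul hE)).mul (by fun_prop)
    · exact mul_ne_zero (h.D1_ne (by simpa using hz)) (h.D0_ne (by simpa using hz))
  have e : ∀ z : ℂ, ‖z‖ < 1 → DL f l a η z = 0 + z * (z * H z) := by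
    intro z hz
    have h1 := h.diff_mul hz
    have h2 : D1 l a η z (EE η k z) * D0 l a η z ≠ 0 := mul_ne_zero (h.D1_ne hz) (h.D0_ne hz)
    have h3 : DL f l a η z = (η * (1 - l ^ 2) * (1 - a ^ 2) * z ^ 2 * EE η k z) /
        (D1 l a η z (EE η k z) * D0 l a η z) := by
      rw [eq_div_iff h2]; exact h1
    rw [h3, hH]
    ring
  constructor
  · rw [tc_zero, e 0 (by simp)]; simp
  · have h1 := tc_succ (f := DL f l a η) (p := fun z => z * H z)
      (differentiableOn_id.mul hHd) 0 e 0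
    rw [zero_add] at h1
    rw [h1, tc_zero]
    simp

end Cmp

end Pool.Agent.P187s
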