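import Mathlib
import Pool.Agent.Lib.P187s.Diff

/-!
# Estimates on a circle inside the disc
-/

set_option autoImplicit false

open Complex Metric Set
open scoped ComplexConjugate
open Pool.Agent.P187f6b Pool.Agent.P187o

namespace Pool.Agent.P187s

/-- The radius of the circle on which the estimates are made. -/
noncomputable def rho : ℝ := 1.3448 * nu

lemma rho_lt : rho < 0.95105 := by
  unfold rho
  have := nu_lt
  norm_num at *
  linarith

lemma rho_pos : 0 < rho := by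
  unfold rho
  have := nu_pos
  positivity

lemma rho_nu : rho * nu = 0.82 ^ 2 := by
  unfold rho
  have := nu_sq
  norm_num
  nlinarith

namespace Cmp

variable {f k : ℂ → ℂ} {l a ε : ℝ} {η : ℂ}

lemma E_bound (h : Cmp f l a ε η k) {z : ℂ} (hz : ‖z‖ = rho) : ‖EE η k z‖ ≤ 40 * ε := by
  have hρ := rho_lt
  have h1 := (harnack h.EE_diff h.EE_re h.EE_zero h.eps0 (z := z) (by rw [hz]; linarith)).1
  rw [hz] at h1
  have h2 := h.eps0
  have h3 := norm_nonneg (EE η k z)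
  norm_num at hρ
  have h4 : 0.04895 * ‖EE η k z‖ ≤ 1.95105 * ε := by
    have h5 : 0.04895 * ‖EE η k z‖ ≤ (1 - rho) * ‖EE η k z‖ :=
      mul_le_mul_of_nonneg_right (by norm_num; linarith) h3
    have h6 : ε * (1 + rho) ≤ ε * 1.95105 :=
      mul_le_mul_of_nonneg_left (by norm_num; linarith) h2
    linarith
  norm_num at h4
  linarith

lemma den_prod (h : Cmp f l a ε η k) {z : ℂ} (hz : ‖z‖ < 1) :
    0.0856 ≤ ‖D1 l a η z (EE η k z) * D0 l a η z‖ := by
  rw [norm_mul]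
  have h1 := h.D1_lower hz
  have h2 := h.D0_lower hz
  have ha := h.a_hi
  have hl := h.l_small
  have hl0 := h.l_pos
  have h3 : 0.2926 ≤ (1 - a) * (1 - l) := by
    norm_num at ha hl ⊢
    nlinarith
  have h4 : (0.2926 : ℝ) * 0.2926 ≤ ‖D1 l a η z (EE η k z)‖ * ‖D0 l a η z‖ :=
    mul_le_mul (h3.trans h1) (h3.trans h2) (by norm_num) (norm_nonneg _)
  norm_num at h4 ⊢
  linarith

lemma DL_bound (h : Cmp f l a ε η k) {z : ℂ} (hz : ‖z‖ = rho) :
    ‖DL f l a η z‖ ≤ 250 * ε := by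
  have hz1 : ‖z‖ < 1 := by
    rw [hz]
    have := rho_lt
    linarith
  have h1 := congrArg norm (h.diff_mul hz1)
  have h2 := h.den_prod hz1
  have h3 := h.E_bound hz
  have e0 : ‖η * (1 - (l : ℂ) ^ 2) * (1 - (a : ℂ) ^ 2) * z ^ 2 * EE η k z‖ =
      1 * ‖(1 : ℂ) - (l : ℂ) ^ 2‖ * ‖(1 : ℂ) - (a : ℂ) ^ 2‖ * ‖z‖ ^ 2 * ‖EE η k z‖ := by
    rw [norm_mul, norm_mul, norm_mul, norm_mul, norm_pow, h.norm_eta]
  rw [norm_mul (f z - GG l a η z), e0] at h1
  have e1 : ‖(1 : ℂ) - (l : ℂ) ^ 2‖ ≤ 1 := by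
    have : (1 : ℂ) - (l : ℂ) ^ 2 = ((1 - l ^ 2 : ℝ) : ℂ) := by push_cast; ring
    rw [this, Complex.norm_real, Real.norm_eq_abs, abs_le]
    have := h.l_small
    have := h.l_pos
    constructor <;> nlinarith
  have e2 : ‖(1 : ℂ) - (a : ℂ) ^ 2‖ ≤ 0.502 := by
    have : (1 : ℂ) - (a : ℂ) ^ 2 = ((1 - a ^ 2 : ℝ) : ℂ) := by push_cast; ring
    rw [this, Complex.norm_real, Real.norm_eq_abs, abs_le]
    have := h.a_lo
    have := h.a_hi
    constructor <;> nlinarith
  have e3 : ‖z‖ ^ 2 ≤ 1 := pow_le_one₀ (norm_nonneg _) hz1.le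
  have h4 : 1 * ‖(1 : ℂ) - (l : ℂ) ^ 2‖ * ‖(1 : ℂ) - (a : ℂ) ^ 2‖ * ‖z‖ ^ 2 * ‖EE η k z‖ ≤
      1 * 1 * 0.502 * 1 * (40 * ε) := by
    have := norm_nonneg ((1 : ℂ) - (l : ℂ) ^ 2)
    have := norm_nonneg ((1 : ℂ) - (a : ℂ) ^ 2)
    gcongr
  have h5 : ‖f z - GG l a η z‖ * 0.0856 ≤
      ‖f z - GG l a η z‖ * ‖D1 l a η z (EE η k z) * D0 l a η z‖ :=
    mul_le_mul_of_nonneg_left h2 (norm_nonneg _)
  rw [h1] at h5
  have h6 := h5.trans h4
  have h7 := h.eps0
  unfold DL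
  norm_num at h6
  linarith

lemma GG_near (h : Cmp f l a ε η k) {z : ℂ} (hz : ‖z‖ < 1) :
    ‖GG l a η z - η * QQ z‖ ≤ 175 * l := by
  have ha0 : 0 ≤ a := by linarith [h.a_lo]
  have ha1 : a < 1 := by linarith [h.a_hi]
  have hl := h.l_small
  have hl0 := h.l_pos
  have hψ := norm_psi h.norm_eta ha0 ha1 hz
  have hd := den2_lower hl0.le hψ
  have h1 : ‖GG l a η z - η * QA a z‖ ≤ 3 * l := by
    rw [GG_eq]
    set w := η * QA a z
    have hne : 1 + (l : ℂ) * w ≠ 0 := by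
      refine norm_pos_iff.1 (lt_of_lt_of_le ?_ hd)
      norm_num at hl
      linarith
    have e : (l + w) / (1 + l * w) - w = l * (1 - w ^ 2) / (1 + l * w) := by
      field_simp
      ring
    rw [e, norm_div, norm_mul, Complex.norm_real, Real.norm_eq_abs, abs_of_pos hl0,
      div_le_iff₀ (norm_pos_iff.2 hne)]
    have h2 : ‖1 - w ^ 2‖ ≤ 2 := by
      have := norm_sub_le (1 : ℂ) (w ^ 2)
      rw [norm_one, norm_pow] at this
      have h3 : ‖w‖ ^ 2 ≤ 1 := pow_le_one₀ (norm_nonneg _) hψ.le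
      linarith
    have h3 : l * ‖1 - w ^ 2‖ ≤ l * 2 := mul_le_mul_of_nonneg_left h2 hl0.le
    have h4 : 3 * l * (1 - l) ≤ 3 * l * ‖1 + (l : ℂ) * w‖ :=
      mul_le_mul_of_nonneg_left hd (by linarith)
    norm_num at hl
    nlinarith
  have h2 : ‖QA a z - QQ z‖ ≤ 170 * l := by
    have hn1 := den_lower ha0 hz
    have hn2 := den_lower nu_pos.le hz
    have hz1 := den_ne' ha0 ha1 hz
    have hz2 := den_ne' nu_pos.le nu_lt_one hz
    have e : QA a z - QQ z = z * ((a - nu : ℝ) : ℂ) * (1 - z ^ 2) /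
        ((1 - a * z) * (1 - nu * z)) := by
      unfold QA QQ
      rw [eq_div_iff (mul_ne_zero hz1 hz2), sub_mul]
      have e1 : z * (a - z) / (1 - a * z) * ((1 - a * z) * (1 - nu * z)) =
          z * (a - z) * (1 - nu * z) := by
        rw [div_mul_eq_mul_div, div_eq_iff hz1]; ring
      have e2 : z * (nu - z) / (1 - nu * z) * ((1 - a * z) * (1 - nu * z)) =
          z * (nu - z) * (1 - a * z) := by
        rw [div_mul_eq_mul_div, div_eq_iff hz2]; ring
      rw [e1, e2]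
      push_cast
      ring
    rw [e, norm_div, norm_mul, norm_mul, norm_mul, Complex.norm_real, Real.norm_eq_abs,
      div_le_iff₀ (by
        have := norm_pos_iff.2 hz1
        have := norm_pos_iff.2 hz2
        positivity)]
    have h3 : ‖1 - z ^ 2‖ ≤ 2 := by
      have := norm_sub_le (1 : ℂ) (z ^ 2)
      rw [norm_one, norm_pow] at this
      have h3 : ‖z‖ ^ 2 ≤ 1 := pow_le_one₀ (norm_nonneg _) hz.le
      linarith
    have h4 : ‖z‖ * |a - nu| * ‖1 - z ^ 2‖ ≤ 1 * (7 * l) * 2 := by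
      have := h.ha
      gcongr
    have h5 : (0.2926 : ℝ) * 0.2926 ≤ ‖1 - (a : ℂ) * z‖ * ‖1 - (nu : ℂ) * z‖ := by
      refine mul_le_mul ?_ ?_ (by norm_num) (norm_nonneg _)
      · have := h.a_hi
        norm_num at this ⊢
        linarith
      · have := nu_lt
        norm_num at this ⊢
        linarith
    have h6 : 170 * l * ((0.2926 : ℝ) * 0.2926) ≤
        170 * l * (‖1 - (a : ℂ) * z‖ * ‖1 - (nu : ℂ) * z‖) :=
      mul_le_mul_of_nonneg_left h5 (by linarith)
    norm_num at h6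
    linarith
  have e : GG l a η z - η * QQ z = (GG l a η z - η * QA a z) + η * (QA a z - QQ z) := by ring
  rw [e]
  refine (norm_add_le _ _).trans ?_
  rw [norm_mul, h.norm_eta, one_mul]
  linarith

lemma f_near (h : Cmp f l a ε η k) {z : ℂ} (hz : ‖z‖ = rho) :
    ‖f z - η * QQ z‖ ≤ 9000 * l := by
  have hz1 : ‖z‖ < 1 := by
    rw [hz]
    have := rho_lt
    linarith
  have h1 := h.DL_bound hz
  have h2 := h.GG_near hz1
  have e : f z - η * QQ z = DL f l a η z + (GG l a η z - η * QQ z) := by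
    unfold DL; ring
  rw [e]
  refine (norm_add_le _ _).trans ?_
  have := h.eps1
  have := h.l_pos
  linarith

lemma tc_f_near (h : Cmp f l a ε η k) (n : ℕ) : ‖tc f n - η * q n‖ * rho ^ n ≤ 9000 * l := by
  have hρ := rho_lt
  have hd : DifferentiableOn ℂ (fun z => f z - η * QQ z) (ball 0 1) :=
    h.mem.1.sub ((differentiableOn_const _).mul diff_QQ)
  have e : tc (fun z => f z - η * QQ z) n = tc f n - η * q n := by
    refine tc_eq (c := fun n => tc f n - η * q n) (fun z hz => ?_) n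
    have h1 := (tc_hasSum h.mem.1 hz).sub ((hasSum_Q1 hz).mul_left η)
    have e1 : (fun n => tc f n * z ^ n - η * (q n * z ^ n)) =
        fun n => (tc f n - η * q n) * z ^ n := funext fun n => by ring
    rw [e1] at h1
    exact h1
  rw [← e]
  refine tc_bound hd rho_pos.le (by linarith) (by have := h.l_pos; linarith) (fun z hz => ?_) n
  exact h.f_near hz

lemma tc_DL_bound (h : Cmp f l a ε η k) (n : ℕ) : ‖tc (DL f l a η) n‖ * rho ^ n ≤ 250 * ε := by
  have hρ := rho_lt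
  refine tc_bound h.DL_diff rho_pos.le (by linarith) (by have := h.eps0; linarith)
    (fun z hz => ?_) n
  exact h.DL_bound hz

/-- Termwise comparison of the moduli of the coefficients. -/
lemma term (h : Cmp f l a ε η k) (n : ℕ) :
    ‖tc f (n + 1)‖ - ‖tc (GG l a η) (n + 1)‖ ≤
      -(conj η * tc (DL f l a η) (n + 1)).re +
        2 * ‖tc (DL f l a η) (n + 1)‖ * (1 / 10 ^ 6 * (1 / 0.82) ^ (n + 1)) := by
  have hD := h.tc_DL (n + 1)
  rcases n with _ | n
  · have h0 := h.tc_DL_zero_one.2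
    rw [zero_add] at hD ⊢
    rw [h0] at hD ⊢
    have h1 : tc f 1 = tc (GG l a η) 1 := by linear_combination -hD
    rw [h1]
    simp
  · set v0 : ℂ := η * q (n + 2) with hv0
    have hq : q (n + 2) = -nu ^ (n + 2) := q_add_two n
    have hp : 0 < nu ^ (n + 2) := pow_pos nu_pos _
    have hnv : ‖v0‖ = nu ^ (n + 2) := by
      rw [hv0, norm_mul, h.norm_eta, one_mul, Complex.norm_real, Real.norm_eq_abs, hq, abs_neg,
        abs_of_pos hp]
    have hv0ne : v0 ≠ 0 := by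
      refine norm_pos_iff.1 ?_
      rw [hnv]; exact hp
    have h1 := h.tc_f_near (n + 2)
    have hρ : 0 < rho ^ (n + 2) := pow_pos rho_pos _
    have h2 : ‖tc f (n + 2) - v0‖ ≤ 9000 * l * (1 / 0.82) ^ (2 * (n + 2)) * ‖v0‖ := by
      rw [hnv]
      have h3 : (1 / 0.82 : ℝ) ^ (2 * (n + 2)) * nu ^ (n + 2) = 1 / rho ^ (n + 2) := by
        rw [eq_div_iff hρ.ne', mul_assoc, mul_comm (nu ^ (n + 2)), ← mul_pow, rho_nu, pow_mul,
          ← mul_pow]
        norm_num
      rw [mul_assoc, h3, mul_one_div, le_div_iff₀ hρ]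
      exact h1
    have h4 := phase (u := tc (GG l a η) (n + 2)) hv0ne h2
    have h5 : conj v0 / (‖v0‖ : ℂ) = -conj η := by
      have h6 : ((nu ^ (n + 2) : ℝ) : ℂ) ≠ 0 := by exact_mod_cast hp.ne'
      rw [hnv, div_eq_iff h6, hv0, map_mul, Complex.conj_ofReal, hq]
      push_cast
      ring
    have h6 : √(9000 * l * (1 / 0.82) ^ (2 * (n + 2))) ≤ 1 / 10 ^ 6 * (1 / 0.82) ^ (n + 2) := by
      refine Real.sqrt_le_iff.2 ⟨by positivity, ?_⟩
      rw [mul_pow, ← pow_mul, mul_comm (n + 2) 2]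
      refine mul_le_mul_of_nonneg_right ?_ (by positivity)
      have := h.l_small
      norm_num at this ⊢
      linarith
    have hD2 : tc f (n + 2) - tc (GG l a η) (n + 2) = tc (DL f l a η) (n + 2) := by
      rw [h.tc_DL (n + 2)]
    rw [h5, hD2, neg_mul, Complex.neg_re] at h4
    have h7 : 2 * ‖tc (DL f l a η) (n + 2)‖ * √(9000 * l * (1 / 0.82) ^ (2 * (n + 2))) ≤
        2 * ‖tc (DL f l a η) (n + 2)‖ * (1 / 10 ^ 6 * (1 / 0.82) ^ (n + 2)) :=
      mul_le_mul_of_nonneg_left h6 (by positivity)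
    have e : n + 1 + 1 = n + 2 := rfl
    rw [e]
    linarith

end Cmp

end Pool.Agent.P187s
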