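import Mathlib
import Pool.Agent.Lib.P187s.Est

/-!
# The comparison theorem
-/

set_option autoImplicit false

open Complex Metric Set
open scoped ComplexConjugate
open Pool.Agent.P187f6b Pool.Agent.P187o

namespace Pool.Agent.P187s

namespace Cmp

variable {f k : ℂ → ℂ} {l a ε r : ℝ} {η : ℂ}

lemma re_DL (h : Cmp f l a ε η k) (hr : |r - nu| ≤ l) (hr' : r ≤ nu) :
    0.17 * ε ≤ (conj η * DL f l a η r).re := by
  have hl0 := h.l_pos
  have hl := h.l_small
  have hε := h.eps0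
  have hε1 := h.eps1
  have hnu := nu_lt
  have hnu' := lt_nu
  have hnusq := nu_sq
  have halo := h.a_lo
  have hahi := h.a_hi
  have hra := abs_le.1 hr
  have haa := abs_le.1 h.ha
  norm_num at hl hnu hnu' halo hahi
  have hr0 : 0 ≤ r := by linarith [hra.1]
  have hnr : ‖(r : ℂ)‖ = r := by
    rw [Complex.norm_real, Real.norm_eq_abs, abs_of_nonneg hr0]
  have hr1 : ‖(r : ℂ)‖ < 1 := by rw [hnr]; linarith
  obtain ⟨hE1, hE2⟩ := harnack h.EE_diff h.EE_re h.EE_zero h.eps0 hr1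
  rw [hnr] at hE1 hE2
  set E := EE η k r with hE
  have hEn := norm_nonneg E
  have hEre : 0 ≤ E.re := h.EE_re _ hr1
  have hE3 : ‖E‖ ≤ 5.84 * ε := by
    have h1 : 0.2928 * ‖E‖ ≤ (1 - r) * ‖E‖ := mul_le_mul_of_nonneg_right (by linarith) hEn
    have h2 : ε * (1 + r) ≤ ε * 1.7072 := mul_le_mul_of_nonneg_left (by linarith) hε
    norm_num at h1 h2 ⊢
    linarith
  have hE4 : 0.1715 * ε ≤ E.re := by
    have h1 : (1 + r) * E.re ≤ 1.7072 * E.re := mul_le_mul_of_nonneg_right (by linarith) hEre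
    have h2 : ε * 0.2928 ≤ ε * (1 - r) := mul_le_mul_of_nonneg_left (by linarith) hε
    norm_num at h1 h2 ⊢
    linarith
  set P := D1 l a η r E * D0 l a η r with hP
  have hPlow : 0.0856 ≤ ‖P‖ := h.den_prod hr1
  set y := conj η * DL f l a η r with hy
  set num : ℝ := (1 - l ^ 2) * (1 - a ^ 2) * r ^ 2 with hnum
  have hyP : y * P = (num : ℂ) * E := by
    have h1 := h.diff_mul hr1
    have h2 : DL f l a η r * P = η * (1 - l ^ 2) * (1 - a ^ 2) * r ^ 2 * E := h1
    rw [hy, mul_assoc, h2, hnum]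
    push_cast
    linear_combination ((1 - (l : ℂ) ^ 2) * (1 - (a : ℂ) ^ 2) * r ^ 2 * E) * h.etaeta
  -- closeness of the factors
  have har : |a * r - 1 / 2| ≤ 5.7 * l := by
    have e : a * r - 1 / 2 = (a - nu) * r + nu * (r - nu) := by rw [← hnusq]; ring
    rw [e]
    refine (abs_add_le _ _).trans ?_
    rw [abs_mul, abs_mul, abs_of_nonneg hr0, abs_of_pos nu_pos]
    have h1 : |a - nu| * r ≤ 7 * l * 0.7072 :=
      mul_le_mul h.ha (by norm_num; linarith) hr0 (by linarith)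
    have h2 : nu * |r - nu| ≤ 0.7072 * l :=
      mul_le_mul (by norm_num; linarith) hr (abs_nonneg _) (by norm_num)
    norm_num at h1 h2 ⊢
    linarith
  have hD0 : ‖D0 l a η r - 1 / 2‖ ≤ 7 * l := by
    have e : D0 l a η r - 1 / 2 = ((-(a * r - 1 / 2) : ℝ) : ℂ) + l * (η * (r * (a - r))) := by
      unfold D0
      push_cast
      ring
    rw [e]
    refine (norm_add_le _ _).trans ?_
    rw [Complex.norm_real, Real.norm_eq_abs, abs_neg, norm_mul, norm_mul, norm_mul, h.norm_eta,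
      hnr, Complex.norm_real, Real.norm_eq_abs, abs_of_pos hl0, ← Complex.ofReal_sub,
      Complex.norm_real, Real.norm_eq_abs]
    have h1 : |a - r| ≤ 1 := by rw [abs_le]; constructor <;> linarith
    have h2 : l * (1 * (r * |a - r|)) ≤ l * (1 * (1 * 1)) := by
      have := abs_nonneg (a - r)
      gcongr
      linarith
    norm_num at har
    linarith
  have hcoef : ‖(a : ℂ) * r + l * η * (r : ℂ) ^ 2‖ ≤ 0.51 := by
    refine (norm_add_le _ _).trans ?_
    rw [norm_mul, norm_mul, norm_mul, norm_pow, h.norm_eta, hnr, Complex.norm_real,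
      Complex.norm_real, Real.norm_eq_abs, Real.norm_eq_abs, abs_of_pos hl0,
      abs_of_nonneg (by linarith : 0 ≤ a)]
    rw [abs_le] at har
    have h1 : l * 1 * r ^ 2 ≤ l * 1 * 1 := by
      have : r ^ 2 ≤ 1 := pow_le_one₀ hr0 (by linarith)
      gcongr
    norm_num at har ⊢
    linarith [har.2]
  have hD1 : ‖D1 l a η r E - 1 / 2‖ ≤ 110 * l := by
    have e : D1 l a η r E - 1 / 2 = (D0 l a η r - 1 / 2) + (a * r + l * η * r ^ 2) * E := by
      unfold D1; ring
    rw [e]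
    refine (norm_add_le _ _).trans ?_
    rw [norm_mul]
    have h1 : ‖(a : ℂ) * r + l * η * (r : ℂ) ^ 2‖ * ‖E‖ ≤ 0.51 * (5.84 * ε) :=
      mul_le_mul hcoef hE3 hEn (by norm_num)
    norm_num at h1
    linarith
  have hnumb : |num - 1 / 4| ≤ 7 * l := by
    have hA : |a ^ 2 - 1 / 2| ≤ 10 * l := by
      have e : a ^ 2 - 1 / 2 = (a - nu) * (a + nu) := by rw [← hnusq]; ring
      rw [e, abs_mul, abs_of_nonneg (by linarith : 0 ≤ a + nu)]
      calc |a - nu| * (a + nu) ≤ 7 * l * (10 / 7) :=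
            mul_le_mul h.ha (by linarith) (by linarith) (by linarith)
        _ = 10 * l := by ring
    have hR : |r ^ 2 - 1 / 2| ≤ 1.5 * l := by
      have e : r ^ 2 - 1 / 2 = (r - nu) * (r + nu) := by rw [← hnusq]; ring
      rw [e, abs_mul, abs_of_nonneg (by linarith : 0 ≤ r + nu)]
      calc |r - nu| * (r + nu) ≤ l * 1.5 :=
            mul_le_mul hr (by norm_num; linarith) (by linarith) (by linarith)
        _ = 1.5 * l := by ring
    set A := a ^ 2 - 1 / 2 with hAdef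
    set R := r ^ 2 - 1 / 2 with hRdef
    have e : num - 1 / 4 = 1 / 2 * R - 1 / 2 * A - A * R - l ^ 2 * ((1 - a ^ 2) * r ^ 2) := by
      rw [hnum, hAdef, hRdef]; ring
    rw [e]
    have h1 : |A * R| ≤ 15 * l * l := by
      rw [abs_mul]
      calc |A| * |R| ≤ 10 * l * (1.5 * l) := mul_le_mul hA hR (abs_nonneg _) (by linarith)
        _ = 15 * l * l := by ring
    have h2 : 0 ≤ (1 - a ^ 2) * r ^ 2 := mul_nonneg (by nlinarith) (sq_nonneg r)
    have h3 : (1 - a ^ 2) * r ^ 2 ≤ 1 := by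
      have h4 : r ^ 2 ≤ 1 := pow_le_one₀ hr0 (by linarith)
      have h5 : 1 - a ^ 2 ≤ 1 := by nlinarith [sq_nonneg a]
      have h6 : 0 ≤ 1 - a ^ 2 := by nlinarith
      nlinarith
    have h4 : l * l ≤ l * (1 / 100) := mul_le_mul_of_nonneg_left (by linarith) hl0.le
    have h5 : l ^ 2 * ((1 - a ^ 2) * r ^ 2) ≤ l ^ 2 * 1 :=
      mul_le_mul_of_nonneg_left h3 (sq_nonneg l)
    have h6 : 0 ≤ l ^ 2 * ((1 - a ^ 2) * r ^ 2) := mul_nonneg (sq_nonneg l) h2
    rw [abs_le] at h1 hA hR ⊢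
    norm_num at hR
    constructor
    · nlinarith [h1.1, h1.2, hA.1, hA.2, hR.1, hR.2]
    · nlinarith [h1.1, h1.2, hA.1, hA.2, hR.1, hR.2]
  have hdiff : ‖(num : ℂ) - P‖ ≤ 70 * l := by
    have e : (num : ℂ) - P = ((num - 1 / 4 : ℝ) : ℂ) - ((D1 l a η r E - 1 / 2) *
        (D0 l a η r - 1 / 2) + 1 / 2 * (D1 l a η r E - 1 / 2) + 1 / 2 * (D0 l a η r - 1 / 2)) := by
      rw [hP]; push_cast; ring
    rw [e]
    refine (norm_sub_le _ _).trans ?_
    rw [Complex.norm_real, Real.norm_eq_abs]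
    have h1 : ‖(D1 l a η r E - 1 / 2) * (D0 l a η r - 1 / 2) + 1 / 2 * (D1 l a η r E - 1 / 2) +
        1 / 2 * (D0 l a η r - 1 / 2)‖ ≤ 110 * l * (7 * l) + 1 / 2 * (110 * l) +
          1 / 2 * (7 * l) := by
      refine (norm_add_le _ _).trans (add_le_add ((norm_add_le _ _).trans (add_le_add ?_ ?_)) ?_)
      · rw [norm_mul]
        exact mul_le_mul hD1 hD0 (norm_nonneg _) (by linarith)
      · rw [norm_mul]
        have : ‖(1 / 2 : ℂ)‖ = 1 / 2 := by norm_num
        rw [this]; linarith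
      · rw [norm_mul]
        have : ‖(1 / 2 : ℂ)‖ = 1 / 2 := by norm_num
        rw [this]; linarith
    have h4 : l * l ≤ l * (1 / 1000) := mul_le_mul_of_nonneg_left (by linarith) hl0.le
    nlinarith
  have hyE : ‖y - E‖ ≤ 0.001 * ε := by
    have h1 : (y - E) * P = E * ((num : ℂ) - P) := by
      rw [sub_mul, hyP]; ring
    have h2 := congrArg norm h1
    rw [norm_mul (y - E) P, norm_mul E] at h2
    have h3 : ‖E‖ * ‖(num : ℂ) - P‖ ≤ 5.84 * ε * (70 * l) :=
      mul_le_mul hE3 hdiff (norm_nonneg _) (by linarith)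
    have h4 : ‖y - E‖ * 0.0856 ≤ ‖y - E‖ * ‖P‖ :=
      mul_le_mul_of_nonneg_left hPlow (norm_nonneg _)
    have h5 : 5.84 * ε * (70 * l) ≤ 5.84 * ε * (70 * (1 / 10 ^ 16)) := by
      gcongr
      norm_num
      linarith
    rw [h2] at h4
    have h6 := h4.trans (h3.trans h5)
    norm_num at h6 ⊢
    linarith
  have h1 := Complex.abs_re_le_norm (y - E)
  rw [Complex.sub_re, abs_le] at h1
  norm_num at hyE hE4 ⊢
  linarith [h1.1]

theorem compare (h : Cmp f l a ε η k) (hr : |r - nu| ≤ l) (hr' : r ≤ nu) :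
    maj l f r ≤ maj l (GG l a η) r - ε / 10 := by
  have hl0 := h.l_pos
  have hl := h.l_small
  have hε := h.eps0
  have hnu := nu_lt
  have hnu' := lt_nu
  have hra := abs_le.1 hr
  have ha0 : 0 ≤ a := by linarith [h.a_lo]
  have ha1 : a < 1 := by linarith [h.a_hi]
  norm_num at hl hnu hnu'
  have hr0 : 0 ≤ r := by linarith [hra.1]
  have hr1 : r < 1 := by linarith
  have hnr : ‖(r : ℂ)‖ = r := by
    rw [Complex.norm_real, Real.norm_eq_abs, abs_of_nonneg hr0]
  have hGd := diff_GG h.l_pos.le (by linarith : l < 1) h.norm_eta ha0 ha1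
  have hsf : Summable fun n : ℕ => ‖tc f (n + 1)‖ * r ^ (n + 1) :=
    (summable_nat_add_iff (f := fun n : ℕ => ‖tc f n‖ * r ^ n) 1).2 (tc_summable h.mem.1 hr0 hr1)
  have hsG : Summable fun n : ℕ => ‖tc (GG l a η) (n + 1)‖ * r ^ (n + 1) :=
    (summable_nat_add_iff (f := fun n : ℕ => ‖tc (GG l a η) n‖ * r ^ n) 1).2
      (tc_summable hGd hr0 hr1)
  have hmf : maj l f r = l + ∑' n : ℕ, ‖tc f (n + 1)‖ * r ^ (n + 1) := rfl
  have hmG : maj l (GG l a η) r = l + ∑' n : ℕ, ‖tc (GG l a η) (n + 1)‖ * r ^ (n + 1) := rfl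
  -- the real part
  have hS1 := tc_hasSum h.DL_diff (z := (r : ℂ)) (by rw [hnr]; exact hr1)
  have hS2 := (hasSum_nat_add_iff' (f := fun n : ℕ => tc (DL f l a η) n * (r : ℂ) ^ n) 1).2 hS1
  rw [Finset.sum_range_one, h.tc_DL_zero_one.1, zero_mul, sub_zero] at hS2
  have hS3 := (Complex.hasSum_re (hS2.mul_left (conj η))).neg
  -- the error part
  have hκ : HasSum (fun n : ℕ => 5 / 10 ^ 4 * ε * (1 / 1.102736) ^ (n + 1))
      (5 / 10 ^ 4 * ε * ((1 / 1.102736) * (1 - 1 / 1.102736)⁻¹)) := by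
    refine HasSum.mul_left _ ?_
    refine ((hasSum_geometric_of_lt_one (r := (1 / 1.102736 : ℝ)) (by norm_num)
      (by norm_num)).mul_left (1 / 1.102736)).congr_fun (fun n => ?_)
    rw [pow_succ]; ring
  have htot := hS3.add hκ
  have hle := (hsf.sub hsG).tsum_le_tsum (fun n => ?_) htot.summable
  · rw [htot.tsum_eq, hsf.tsum_sub hsG] at hle
    have h1 := h.re_DL hr hr'
    have h2 : 5 / 10 ^ 4 * ε * ((1 / 1.102736) * (1 - 1 / 1.102736)⁻¹) ≤ 0.01 * ε := by
      have : (1 / 1.102736 : ℝ) * (1 - 1 / 1.102736)⁻¹ ≤ 10 := by norm_num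
      nlinarith
    rw [hmf, hmG]
    norm_num at h1 h2 hle ⊢
    linarith
  · have h1 := h.term n
    have hrn : 0 ≤ r ^ (n + 1) := pow_nonneg hr0 _
    have h2 := mul_le_mul_of_nonneg_right h1 hrn
    have h3 : (conj η * (tc (DL f l a η) (n + 1) * (r : ℂ) ^ (n + 1))).re =
        (conj η * tc (DL f l a η) (n + 1)).re * r ^ (n + 1) := by
      rw [← mul_assoc, ← Complex.ofReal_pow, Complex.re_mul_ofReal]
    have h4 : ‖tc (DL f l a η) (n + 1)‖ * (1 / 0.82) ^ (n + 1) * r ^ (n + 1) ≤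
        250 * ε * (1 / 1.102736) ^ (n + 1) := by
      have h5 := h.tc_DL_bound (n + 1)
      have h6 : (1 / 0.82 : ℝ) ^ (n + 1) * r ^ (n + 1) ≤
          rho ^ (n + 1) * (1 / 1.102736) ^ (n + 1) := by
        rw [← mul_pow, ← mul_pow]
        refine pow_le_pow_left₀ (by positivity) ?_ _
        unfold rho
        norm_num
        linarith
      have h7 := mul_le_mul_of_nonneg_left h6 (norm_nonneg (tc (DL f l a η) (n + 1)))
      have h8 := mul_le_mul_of_nonneg_right h5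
        (by positivity : (0 : ℝ) ≤ (1 / 1.102736) ^ (n + 1))
      linarith
    rw [h3]
    norm_num at h2 h4 ⊢
    linarith

end Cmp

end Pool.Agent.P187s
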