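import Mathlib
import Pool.Agent.Lib.P187s.Compare

/-!
# Localisation of the first two coefficients
-/

set_option autoImplicit false

open Complex Metric Set
open scoped ComplexConjugate
open Pool.Agent.P187f6b Pool.Agent.P187o

namespace Pool.Agent.P187s

/-- The energy estimate. -/
theorem energy_key {A : ℕ → ℝ} {l σ : ℝ} (hs : Summable fun n => A (n + 1) ^ 2)
    (hsum : l ^ 2 + ∑' n, A (n + 1) ^ 2 ≤ 1) (hσ : 0 ≤ σ) (hσ1 : σ ≤ 1)
    (hbig : 1 - l ≤ ∑' n, A (n + 1) * (nu * (1 - σ)) ^ (n + 1)) :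
    Summable (fun n => (A (n + 1) - nu ^ (n + 1)) ^ 2) ∧
    (2 * σ - l) + l ^ 2 / 2 + (1 / 4) * ∑' n, (A (n + 1) - nu ^ (n + 1)) ^ 2 ≤ 8 * σ ^ 2 := by
  set x : ℕ → ℝ := fun n => A (n + 1) - nu ^ (n + 1) with hx
  have hmul := Big.summ_mul (u := fun n => nu ^ (n + 1)) (v := fun n => A (n + 1))
    hasSum_w.summable hs
  have hwx : Summable fun n => nu ^ (n + 1) * x n := by
    refine (hmul.sub hasSum_w.summable).congr (fun n => ?_)
    simp only [hx]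
    ring
  have hx2 : Summable fun n => x n ^ 2 := by
    refine ((hs.add hasSum_w.summable).sub (hmul.mul_left 2)).congr (fun n => ?_)
    simp only [hx]
    ring
  refine ⟨hx2, ?_⟩
  have henergy : ∑' n, A (n + 1) ^ 2 =
      1 + 2 * (∑' n, nu ^ (n + 1) * x n) + ∑' n, x n ^ 2 := by
    have h1 := (hasSum_w.add (hwx.hasSum.mul_left 2)).add hx2.hasSum
    rw [← h1.tsum_eq]
    refine tsum_congr (fun n => ?_)
    simp only [hx]
    ring
  have hg := hasSum_w_geom (s := 1 - σ) (by linarith) (by linarith)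
  have hs2 : Summable fun n => nu ^ (n + 1) * x n * (1 - (1 - σ) ^ (n + 1)) := by
    refine Summable.of_norm_bounded (g := fun n => |nu ^ (n + 1) * x n|)
      hwx.abs (fun n => ?_)
    rw [norm_mul, Real.norm_eq_abs, Real.norm_eq_abs]
    have := Big.pow_bd hσ hσ1 n
    have h3 : |1 - (1 - σ) ^ (n + 1)| ≤ 1 := by
      rw [abs_of_nonneg this.1]
      have := pow_nonneg (by linarith : 0 ≤ 1 - σ) (n + 1)
      linarith
    exact mul_le_of_le_one_right (abs_nonneg _) h3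
  have e1 : ∑' n, A (n + 1) * (nu * (1 - σ)) ^ (n + 1) = (1 - σ) / (2 - (1 - σ)) +
      (∑' n, nu ^ (n + 1) * x n) - ∑' n, nu ^ (n + 1) * x n * (1 - (1 - σ) ^ (n + 1)) := by
    have h4 := (hg.add hwx.hasSum).sub hs2.hasSum
    rw [← h4.tsum_eq]
    refine tsum_congr (fun n => ?_)
    simp only [hx, mul_pow]
    ring
  rw [e1] at hbig
  have h5 : (1 - σ) / (2 - (1 - σ)) ≤ 1 - 2 * σ + 2 * σ ^ 2 := by
    rw [div_le_iff₀ (by linarith)]
    nlinarith [pow_nonneg hσ 3]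
  have h6 : -((1 / 4) * (∑' n, x n ^ 2) + 6 * σ ^ 2) ≤
      ∑' n, nu ^ (n + 1) * x n * (1 - (1 - σ) ^ (n + 1)) := by
    have h7 : HasSum (fun n => -((1 / 4) * x n ^ 2 +
        σ ^ 2 * ((nu ^ (n + 1)) ^ 2 * ((n : ℝ) + 1) ^ 2)))
        (-((1 / 4) * (∑' n, x n ^ 2) + σ ^ 2 * 6)) :=
      ((hx2.hasSum.mul_left _).add (hasSum_w_two.mul_left _)).neg
    have h8 := h7.summable.tsum_le_tsum (fun n => ?_) hs2
    · rw [h7.tsum_eq] at h8
      linarith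
    · have h9 := Big.pow_bd hσ hσ1 n
      have h10 : |nu ^ (n + 1) * x n * (1 - (1 - σ) ^ (n + 1))| ≤
          nu ^ (n + 1) * |x n| * (((n : ℝ) + 1) * σ) := by
        rw [abs_mul, abs_mul, abs_of_pos (pow_pos nu_pos _), abs_of_nonneg h9.1]
        exact mul_le_mul_of_nonneg_left h9.2 (mul_nonneg (pow_pos nu_pos _).le (abs_nonneg _))
      have h11 := neg_abs_le (nu ^ (n + 1) * x n * (1 - (1 - σ) ^ (n + 1)))
      have h12 : nu ^ (n + 1) * |x n| * (((n : ℝ) + 1) * σ) ≤ (1 / 4) * x n ^ 2 +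
          σ ^ 2 * ((nu ^ (n + 1)) ^ 2 * ((n : ℝ) + 1) ^ 2) := by
        have h13 := sq_nonneg (1 / 2 * |x n| - σ * (nu ^ (n + 1) * ((n : ℝ) + 1)))
        have h14 : |x n| ^ 2 = x n ^ 2 := sq_abs _
        nlinarith
      linarith
  linarith

lemma tc_energy {l : ℝ} (hl : 0 < l) {f : ℂ → ℂ} (hf : f ∈ FClass l) :
    Summable (fun n => ‖tc f (n + 1)‖ ^ 2) ∧ l ^ 2 + ∑' n, ‖tc f (n + 1)‖ ^ 2 ≤ 1 := by
  have hB := ball_of_mem hf
  have h1 : Summable (fun n => ‖tc f (n + 1)‖ ^ 2) :=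
    (summable_nat_add_iff (f := fun n => ‖tc f n‖ ^ 2) 1).2 hB.summ
  refine ⟨h1, ?_⟩
  have h2 := hB.norm_le
  rw [hB.summ.tsum_eq_zero_add, tc_zero, hf.2.2, Complex.norm_real, Real.norm_eq_abs,
    abs_of_pos hl] at h2
  exact h2

/-- The localisation of the moduli of the coefficients. -/
theorem localize {l σ : ℝ} (hl : 0 < l) (hl1 : l ≤ 1) {f : ℂ → ℂ} (hf : f ∈ FClass l)
    (hσ : 0 ≤ σ) (hσ1 : σ ≤ l) (hσ2 : l - l ^ 2 ≤ 2 * σ)
    (hbig : 1 ≤ maj l f (nu * (1 - σ))) (n : ℕ) :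
    |‖tc f (n + 1)‖ - nu ^ (n + 1)| ≤ 6 * l := by
  obtain ⟨h1, h2⟩ := tc_energy hl hf
  have hme : maj l f (nu * (1 - σ)) =
      l + ∑' n : ℕ, ‖tc f (n + 1)‖ * (nu * (1 - σ)) ^ (n + 1) := rfl
  rw [hme] at hbig
  obtain ⟨h3, h4⟩ := energy_key (A := fun n => ‖tc f n‖) h1 h2 hσ (by linarith) (by linarith)
  have h5 : (‖tc f (n + 1)‖ - nu ^ (n + 1)) ^ 2 ≤
      ∑' n, (‖tc f (n + 1)‖ - nu ^ (n + 1)) ^ 2 := h3.le_tsum n (fun _ _ => sq_nonneg _)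
  have h6 : σ ^ 2 ≤ l ^ 2 := pow_le_pow_left₀ hσ hσ1 2
  refine abs_le_of_sq_le_sq ?_ (by linarith)
  nlinarith

end Pool.Agent.P187s
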