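import Mathlib
import Pool.Agent.Lib.P187s.Loc
import Pool.Agent.Lib.P187o.Normal

/-!
# Reduction to the two parameter family
-/

set_option autoImplicit false

open Complex Metric Set
open scoped ComplexConjugate
open Pool.Agent.P187f6b Pool.Agent.P187o

namespace Pool.Agent.P187s

/-- Rotation of the variable. -/
lemma rot_mem {l : ℝ} {f : ℂ → ℂ} (hf : f ∈ FClass l) {ω : ℂ} (hω : ‖ω‖ = 1) :
    (fun z => f (ω * z)) ∈ FClass l := by
  refine ⟨?_, fun z hz => ?_, ?_⟩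
  · refine hf.1.comp (differentiableOn_id.const_mul ω) (fun z hz => ?_)
    have : ‖z‖ < 1 := by simpa using hz
    simp only [mem_ball_zero_iff, norm_mul, hω, one_mul]
    exact this
  · refine hf.2.1 _ ?_
    have : ‖z‖ < 1 := by simpa using hz
    simp only [mem_ball_zero_iff, norm_mul, hω, one_mul]
    exact this
  · simp only [mul_zero]
    exact hf.2.2

lemma tc_rot {l : ℝ} {f : ℂ → ℂ} (hf : f ∈ FClass l) {ω : ℂ} (hω : ‖ω‖ = 1) (n : ℕ) :
    tc (fun z => f (ω * z)) n = ω ^ n * tc f n := by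
  refine tc_eq (c := fun n => ω ^ n * tc f n) (fun z hz => ?_) n
  have h1 : ‖ω * z‖ < 1 := by rw [norm_mul, hω, one_mul]; exact hz
  refine (tc_hasSum hf.1 h1).congr_fun (fun n => ?_)
  rw [mul_pow]
  ring

lemma maj_rot {l : ℝ} {f : ℂ → ℂ} (hf : f ∈ FClass l) {ω : ℂ} (hω : ‖ω‖ = 1) (r : ℝ) :
    maj l (fun z => f (ω * z)) r = maj l f r := by
  have h1 : ∀ g : ℂ → ℂ, maj l g r = l + ∑' n : ℕ, ‖tc g (n + 1)‖ * r ^ (n + 1) := fun _ => rfl
  rw [h1, h1]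
  congr 1
  refine tsum_congr (fun n => ?_)
  rw [tc_rot hf hω, norm_mul, norm_pow, hω, one_pow, one_mul]

theorem exists_cmp {l : ℝ} (hl : 0 < l) (hls : l ≤ 1 / 10 ^ 16) {f : ℂ → ℂ} (hf : f ∈ FClass l)
    (hA1 : |‖tc f 1‖ - nu| ≤ 6 * l) (hA2 : |‖tc f 2‖ - 1 / 2| ≤ 6 * l) :
    ∃ (a ε : ℝ) (η ω : ℂ) (k : ℂ → ℂ), ‖ω‖ = 1 ∧ Cmp (fun z => f (ω * z)) l a ε η k := by
  have hl2 : l * l ≤ l * (1 / 10 ^ 16) := mul_le_mul_of_nonneg_left hls hl.le
  have hnu := nu_lt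
  have hnu' := lt_nu
  have hnu0 := nu_pos
  have hnusq := nu_sq
  norm_num at hls hl2 hnu hnu'
  have hd : 0 < 1 - l ^ 2 := by nlinarith
  -- the parameters
  set α : ℂ := tc f 1 / (1 - (l : ℂ) ^ 2) with hα
  set a : ℝ := ‖tc f 1‖ / (1 - l ^ 2) with ha
  have hdc : (1 - (l : ℂ) ^ 2) = ((1 - l ^ 2 : ℝ) : ℂ) := by push_cast; ring
  have hdne : (1 - (l : ℂ) ^ 2) ≠ 0 := by
    rw [hdc]; exact_mod_cast hd.ne'
  have hαa : ‖α‖ = a := by
    rw [hα, norm_div, hdc, Complex.norm_real, Real.norm_eq_abs, abs_of_pos hd]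
  have haν : |a - nu| ≤ 7 * l := by
    have e : a - nu = (‖tc f 1‖ - nu + nu * l ^ 2) / (1 - l ^ 2) := by
      rw [ha]; field_simp; ring
    rw [e, abs_div, abs_of_pos hd, div_le_iff₀ hd]
    refine (abs_add_le _ _).trans ?_
    rw [abs_of_nonneg (by positivity : 0 ≤ nu * l ^ 2)]
    have : nu * l ^ 2 ≤ 1 * l ^ 2 := mul_le_mul_of_nonneg_right (by linarith) (sq_nonneg l)
    nlinarith
  have haν' := abs_le.1 haν
  have ha0 : 0 ≤ a := by linarith [haν'.1]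
  have ha1 : a < 1 := by linarith [haν'.2]
  have hda : 0 < 1 - a ^ 2 := by nlinarith
  set β : ℂ := (tc f 2 / (1 - (l : ℂ) ^ 2) + l * α ^ 2) / (1 - (a : ℂ) ^ 2) with hβ
  have hdac : (1 - (a : ℂ) ^ 2) = ((1 - a ^ 2 : ℝ) : ℂ) := by push_cast; ring
  have hdane : (1 - (a : ℂ) ^ 2) ≠ 0 := by
    rw [hdac]; exact_mod_cast hda.ne'
  -- lower bound for `β`
  have hβlow : 1 - 34 * l ≤ ‖β‖ := by
    rw [hβ, norm_div, hdac, Complex.norm_real, Real.norm_eq_abs, abs_of_pos hda,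
      le_div_iff₀ hda]
    have h1 : ‖tc f 2 / (1 - (l : ℂ) ^ 2)‖ = ‖tc f 2‖ / (1 - l ^ 2) := by
      rw [norm_div, hdc, Complex.norm_real, Real.norm_eq_abs, abs_of_pos hd]
    have h2 : ‖tc f 2‖ ≤ ‖tc f 2‖ / (1 - l ^ 2) := by
      rw [le_div_iff₀ hd]
      nlinarith [norm_nonneg (tc f 2), sq_nonneg l]
    have h3 : ‖(l : ℂ) * α ^ 2‖ = l * a ^ 2 := by
      rw [norm_mul, norm_pow, hαa, Complex.norm_real, Real.norm_eq_abs, abs_of_pos hl]
    have h4 := norm_sub_norm_le (tc f 2 / (1 - (l : ℂ) ^ 2)) (-((l : ℂ) * α ^ 2))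
    rw [norm_neg, sub_neg_eq_add, h1, h3] at h4
    have h5 := (abs_le.1 hA2).1
    have h6 : a ^ 2 ≤ 1 / 2 + 10 * l ∧ 1 / 2 - 10 * l ≤ a ^ 2 := by
      have e : a ^ 2 - 1 / 2 = (a - nu) * (a + nu) := by rw [← hnusq]; ring
      have h7 : |a ^ 2 - 1 / 2| ≤ 10 * l := by
        rw [e, abs_mul, abs_of_nonneg (by linarith : 0 ≤ a + nu)]
        calc |a - nu| * (a + nu) ≤ 7 * l * (10 / 7) :=
              mul_le_mul haν (by linarith [haν'.2]) (by linarith) (by linarith)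
          _ = 10 * l := by ring
      rw [abs_le] at h7
      constructor <;> linarith [h7.1, h7.2]
    have h7 : l * a ^ 2 ≤ l * (0.51) := mul_le_mul_of_nonneg_left (by norm_num; linarith [h6.1]) hl.le
    norm_num at h7
    nlinarith [h6.1, h6.2]
  have hβne : β ≠ 0 := by
    refine norm_pos_iff.1 ?_
    linarith
  have hαne : α ≠ 0 := by
    refine norm_pos_iff.1 ?_
    rw [hαa]; linarith [haν'.1]
  obtain ⟨e1, he1, he1'⟩ := exists_phase α
  obtain ⟨e2, he2, he2'⟩ := exists_phase β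
  rw [hαa] at he1'
  have hc1 : e1 * conj e1 = 1 := by
    rw [Complex.mul_conj, Complex.normSq_eq_norm_sq, he1]; norm_num
  set ω : ℂ := -(conj e1 * e2) with hω
  set η : ℂ := -(conj e1 * conj e1 * e2) with hη
  have hωn : ‖ω‖ = 1 := by
    rw [hω, norm_neg, norm_mul, RCLike.norm_conj, he1, he2, one_mul]
  have hηn : ‖η‖ = 1 := by
    rw [hη, norm_neg, norm_mul, norm_mul, RCLike.norm_conj, he1, he2, one_mul, one_mul]
  have hωα : ω * α = η * a := by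
    rw [hω, hη, ← he1']
    linear_combination (-(conj e1 * e2 * α)) * (-hc1)
  have hωβ : ω ^ 2 * β = -(η * ‖β‖) := by
    rw [hω, hη, ← he2']
    ring
  have hfr := rot_mem hf hωn
  have hαη : ‖η * (a : ℂ)‖ = a := by
    rw [norm_mul, hηn, one_mul, Complex.norm_real, Real.norm_eq_abs, abs_of_nonneg ha0]
  have q1 : tc (fun z => f (ω * z)) 1 = (1 - (l : ℂ) ^ 2) * (η * a) := by
    rw [tc_rot hf hωn, pow_one, ← hωα, hα]
    field_simp
  have q2 : ‖η * (a : ℂ)‖ < 1 := by rw [hαη]; exact ha1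
  have e : -(η * (1 - ((1 - ‖β‖ : ℝ) : ℂ))) = -(η * ‖β‖) := by push_cast; ring
  have q3 : tc (fun z => f (ω * z)) 2 = (1 - (l : ℂ) ^ 2) * ((1 - (‖η * (a : ℂ)‖ : ℂ) ^ 2) *
      (-(η * (1 - ((1 - ‖β‖ : ℝ) : ℂ)))) - l * (η * a) ^ 2) := by
    rw [tc_rot hf hωn, hαη, e, ← hωβ, ← hωα, hβ]
    field_simp
    ring
  obtain ⟨k, hk⟩ := exists_sdata hl.le (by linarith) hfr q1 q2 q3
  have hβ1 : ‖β‖ ≤ 1 := by
    have h1 := hk.bound 0 (by simp)
    rw [hk.zero, e, norm_neg, norm_mul, hηn, one_mul, Complex.norm_real, norm_norm] at h1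
    exact h1
  exact ⟨a, 1 - ‖β‖, η, ω, k, hωn, hl, by norm_num; exact hls, hfr, hηn, haν, by linarith,
    by linarith, hk⟩

/-- Every function with a large majorant is dominated by a member of the family. -/
theorem reduce {l r : ℝ} (hl : 0 < l) (hls : l ≤ 1 / 10 ^ 16) {f : ℂ → ℂ} (hf : f ∈ FClass l)
    (hr1 : nu * (1 - l) ≤ r) (hr2 : r ≤ nu * (1 - l / 2 + l ^ 2 / 2)) (hr3 : r ≤ nu)
    (hbig : 1 ≤ maj l f r) :
    ∃ (a : ℝ) (η ω : ℂ), |a - nu| ≤ 7 * l ∧ ‖η‖ = 1 ∧ ‖ω‖ = 1 ∧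
      (maj l f r < maj l (GG l a η) r ∨ ∀ z : ℂ, ‖z‖ < 1 → f z = GG l a η (ω * z)) ∧
      maj l f r ≤ maj l (GG l a η) r := by
  have hnu0 := nu_pos
  have hl1 : l ≤ 1 := hls.trans (by norm_num)
  set σ : ℝ := 1 - r / nu with hσ
  have hrσ : r = nu * (1 - σ) := by
    rw [hσ]; field_simp; ring
  have h0 : 0 ≤ σ := by
    rw [hσ, sub_nonneg, div_le_one hnu0]; exact hr3
  have h1 : σ ≤ l := by
    rw [hrσ] at hr1
    have := le_of_mul_le_mul_left hr1 hnu0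
    linarith
  have h2 : l - l ^ 2 ≤ 2 * σ := by
    rw [hrσ] at hr2
    have := le_of_mul_le_mul_left hr2 hnu0
    linarith
  have hbig' := hbig
  rw [hrσ] at hbig'
  have hA1 := localize hl hl1 hf h0 h1 h2 hbig' 0
  have hA2 := localize hl hl1 hf h0 h1 h2 hbig' 1
  rw [zero_add, pow_one] at hA1
  rw [show 1 + 1 = 2 from rfl, nu_sq] at hA2
  obtain ⟨a, ε, η, ω, k, hω, hc⟩ := exists_cmp hl hls hf hA1 hA2
  have hrν : |r - nu| ≤ l := by
    rw [hrσ, abs_le]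
    have := nu_lt_one
    constructor <;> nlinarith
  have h3 := hc.compare hrν hr3
  rw [maj_rot hf hω] at h3
  have hε := hc.eps0
  have hωω : ω * conj ω = 1 := by
    rw [Complex.mul_conj, Complex.normSq_eq_norm_sq, hω]; norm_num
  refine ⟨a, η, conj ω, hc.ha, hc.norm_eta, by rw [RCLike.norm_conj, hω], ?_, by linarith⟩
  rcases hε.eq_or_lt with h | h
  · right
    intro z hz
    have h4 := hc.eq_of_eps h.symm (z := conj ω * z) (by
      rw [norm_mul, RCLike.norm_conj, hω, one_mul]; exact hz)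
    rw [← h4]
    congr 1
    rw [← mul_assoc, hωω, one_mul]
  · left
    linarith

end Pool.Agent.P187s
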