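import Mathlib
import Pool.Agent.Lib.P187s.Reduce
import Pool.Agent.Lib.P187o.Upper

/-!
# Explicit bounds for the radius
-/

set_option autoImplicit false

open Complex Metric Set
open scoped ComplexConjugate
open Pool.Agent.P187f6b Pool.Agent.P187o

namespace Pool.Agent.P187s

lemma maj_le_one {l : ℝ} (hl : 0 < l) (hl1 : l ≤ 1 / 16) {f : ℂ → ℂ} (hf : f ∈ FClass l) :
    maj l f (nu * (1 - l)) ≤ 1 := by
  by_contra hcon
  rw [not_le] at hcon
  have hme : maj l f (nu * (1 - l)) =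
      l + ∑' n : ℕ, ‖tc f (n + 1)‖ * (nu * (1 - l)) ^ (n + 1) := rfl
  rw [hme] at hcon
  obtain ⟨h1, h2⟩ := tc_energy hl hf
  obtain ⟨h3, h4⟩ := energy_key (A := fun n => ‖tc f n‖) h1 h2 hl.le (by linarith)
    (by linarith)
  have h5 : 0 ≤ ∑' n, (‖tc f (n + 1)‖ - nu ^ (n + 1)) ^ 2 := tsum_nonneg (fun n => sq_nonneg _)
  nlinarith

lemma BB_lower {l : ℝ} (hl : 0 < l) (hl1 : l ≤ 1 / 16) : nu * (1 - l) ≤ BB l := by
  have hnu := nu_pos
  have hnu1 := nu_lt_one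
  refine le_csSup ⟨1, fun r hr => hr.2.1.le⟩ ⟨?_, ?_, fun f hf => maj_le_one hl hl1 hf⟩
  · exact mul_nonneg hnu.le (by linarith)
  · nlinarith

lemma KK_le : KK ≤ 10 ^ 13 := by
  have h1 : ∑' n : ℕ, (nu ^ (n + 1)) ^ 2 * ((n : ℝ) + 1) ^ 3 ≤ 150 := by
    rw [← hasSum_w_four.tsum_eq]
    refine (summ_w_pow 3).tsum_le_tsum (fun n => ?_) hasSum_w_four.summable
    refine mul_le_mul_of_nonneg_left ?_ (sq_nonneg _)
    refine pow_le_pow_right₀ ?_ (by norm_num)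
    have : (0 : ℝ) ≤ n := Nat.cast_nonneg n
    linarith
  have h2 : ∑' n : ℕ, (nu ^ (n + 1)) ^ 2 * ((n : ℝ) + 1) ^ 8 ≤ 40320 * 2 ^ 8 := by
    have h3 := (hasSum_w_choose 8).mul_left 40320
    rw [← h3.tsum_eq]
    refine (summ_w_pow 8).tsum_le_tsum (fun n => ?_) h3.summable
    have h4 : (n + 1) ^ 8 ≤ 40320 * (n + 8).choose 8 := by
      have h5 := Nat.pow_succ_le_ascFactorial (n + 1) 8
      have h6 := Nat.ascFactorial_eq_factorial_mul_choose n 8
      rw [h6] at h5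
      have h7 : Nat.factorial 8 = 40320 := rfl
      rw [h7] at h5
      exact h5
    have h5 : ((n : ℝ) + 1) ^ 8 ≤ 40320 * ((n + 8).choose 8 : ℝ) := by exact_mod_cast h4
    have h6 := mul_le_mul_of_nonneg_left h5 (sq_nonneg (nu ^ (n + 1)))
    linarith
  have h3 : ∑' n : ℕ, nu ^ (n + 1) ≤ 3 := by
    have h4 : HasSum (fun k : ℕ => nu ^ (k + 1)) (nu * (1 - nu)⁻¹) := by
      refine ((hasSum_geometric_of_lt_one nu_pos.le nu_lt_one).mul_left nu).congr_fun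
        (fun n => ?_)
      rw [pow_succ]
      ring
    rw [h4.tsum_eq, ← div_eq_mul_inv, div_le_iff₀ (by linarith [nu_lt_one])]
    have := nu_lt
    linarith
  unfold KK
  norm_num at h2 ⊢
  linarith

lemma BB_upper {l : ℝ} (hl : 0 < l) (hls : l ≤ 1 / 10 ^ 16) :
    BB l ≤ nu * (1 - l / 2 + l ^ 2 / 4) := by
  have hK := KK_le
  have hK0 := KK_nonneg
  have h1 : (KK + 1) * l ^ 2 ≤ 1 / 2 := by
    have h2 : (KK + 1) * l ^ 2 ≤ (10 ^ 13 + 1) * (1 / 10 ^ 16) ^ 2 := by gcongr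
    refine h2.trans (by norm_num)
  have h2 := upper hl (hls.trans (by norm_num)) h1
  refine h2.trans ?_
  refine mul_le_mul_of_nonneg_left ?_ nu_pos.le
  have h3 : (KK + 1) * l ≤ 1 / 4 := by
    have h2 : (KK + 1) * l ≤ (10 ^ 13 + 1) * (1 / 10 ^ 16) := by gcongr
    refine h2.trans (by norm_num)
  have h4 : (KK + 1) * l * l ^ 2 ≤ 1 / 4 * l ^ 2 := mul_le_mul_of_nonneg_right h3 (sq_nonneg l)
  nlinarith

/-- Lipschitz bound in the radius. -/
lemma pow_diff {r s : ℝ} (hr : 0 ≤ r) (hrs : r ≤ s) (hs : s ≤ nu) (n : ℕ) :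
    s ^ (n + 1) - r ^ (n + 1) ≤ (n + 1) * nu ^ n * (s - r) := by
  have hnu := nu_pos
  induction n with
  | zero => simp
  | succ n ih =>
    have h1 : s ^ (n + 1 + 1) - r ^ (n + 1 + 1) =
        s * (s ^ (n + 1) - r ^ (n + 1)) + (s - r) * r ^ (n + 1) := by ring
    rw [h1]
    have h2 : 0 ≤ s ^ (n + 1) - r ^ (n + 1) := by
      have := pow_le_pow_left₀ hr hrs (n + 1)
      linarith
    have h3 : s * (s ^ (n + 1) - r ^ (n + 1)) ≤ nu * ((n + 1) * nu ^ n * (s - r)) :=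
      mul_le_mul hs ih h2 hnu.le
    have h4 : (s - r) * r ^ (n + 1) ≤ (s - r) * nu ^ (n + 1) :=
      mul_le_mul_of_nonneg_left (pow_le_pow_left₀ hr (hrs.trans hs) _) (by linarith)
    push_cast
    have e : nu * ((n + 1) * nu ^ n * (s - r)) = (n + 1) * nu ^ (n + 1) * (s - r) := by ring
    rw [e] at h3
    linarith

lemma tc_le_one {l : ℝ} {f : ℂ → ℂ} (hf : f ∈ FClass l) (n : ℕ) : ‖tc f n‖ ≤ 1 := by
  have hB := ball_of_mem hf
  have h1 : ‖tc f n‖ ^ 2 ≤ 1 := (hB.summ.le_tsum n (fun _ _ => sq_nonneg _)).trans hB.norm_le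
  have := norm_nonneg (tc f n)
  nlinarith

lemma maj_lip_r {l : ℝ} {f : ℂ → ℂ} (hf : f ∈ FClass l) {r s : ℝ} (hr : 0 ≤ r) (hrs : r ≤ s)
    (hs : s ≤ nu) : maj l f s ≤ maj l f r + 12 * (s - r) := by
  have hnu := nu_pos
  have hnu1 := nu_lt_one
  have hsum : ∀ r, 0 ≤ r → r < 1 → Summable fun n : ℕ => ‖tc f (n + 1)‖ * r ^ (n + 1) :=
    fun r h0 h1 => (summable_nat_add_iff (f := fun n : ℕ => ‖tc f n‖ * r ^ n) 1).2
      (tc_summable hf.1 h0 h1)
  have h1 := hsum s (by linarith) (by linarith)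
  have h2 := hsum r hr (by linarith)
  have hg : HasSum (fun n : ℕ => ((n : ℝ) + 1) * nu ^ n * (s - r))
      (1 / (1 - nu) ^ 2 * (s - r)) := by
    refine HasSum.mul_right _ ?_
    have h := hasSum_choose_mul_geometric_of_norm_lt_one (𝕜 := ℝ) 1 (r := nu)
      (by rw [Real.norm_eq_abs, abs_of_pos hnu]; exact hnu1)
    refine h.congr_fun (fun n => ?_)
    rw [choose_cast_one]
  have h3 := (h1.sub h2).tsum_le_tsum (fun n => ?_) hg.summable
  · rw [h1.tsum_sub h2, hg.tsum_eq] at h3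
    have h4 : 1 / (1 - nu) ^ 2 * (s - r) ≤ 12 * (s - r) := by
      refine mul_le_mul_of_nonneg_right ?_ (by linarith)
      have h5 := nu_lt
      norm_num at h5
      rw [div_le_iff₀ (by nlinarith)]
      nlinarith
    have e : ∀ r, maj l f r = l + ∑' n : ℕ, ‖tc f (n + 1)‖ * r ^ (n + 1) := fun _ => rfl
    rw [e, e]
    linarith
  · have h5 := pow_diff hr hrs hs n
    have h6 := tc_le_one hf (n + 1)
    have h7 : 0 ≤ s ^ (n + 1) - r ^ (n + 1) := by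
      have := pow_le_pow_left₀ hr hrs (n + 1)
      linarith
    have h8 : ‖tc f (n + 1)‖ * (s ^ (n + 1) - r ^ (n + 1)) ≤ s ^ (n + 1) - r ^ (n + 1) :=
      mul_le_of_le_one_left h7 h6
    linarith

end Pool.Agent.P187s
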