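import Mathlib
import Pool.Agent.Lib.P187s.Range

/-!
# Existence of an extremal member of the family
-/

set_option autoImplicit false

open Complex Metric Set Filter Topology
open scoped ComplexConjugate
open Pool.Agent.P187f6b Pool.Agent.P187o

namespace Pool.Agent.P187s

lemma GG_lip {l a a' : ℝ} {η η' z : ℂ} (hl : 0 ≤ l) (hl1 : l ≤ 1 / 10) (hη : ‖η‖ = 1)
    (hη' : ‖η'‖ = 1) (h0 : 0 ≤ a) (h1 : a ≤ 0.71) (h0' : 0 ≤ a') (h1' : a' ≤ 0.71)
    (hz : ‖z‖ < 1) :
    ‖GG l a η z - GG l a' η' z‖ ≤ 2 * ‖η - η'‖ + 50 * |a - a'| := by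
  norm_num at h1 h1'
  have ha1 : a < 1 := by linarith
  have ha1' : a' < 1 := by linarith
  have hw := norm_psi hη h0 ha1 hz
  have hw' := norm_psi hη' h0' ha1' hz
  have hd := den2_lower hl hw
  have hd' := den2_lower hl hw'
  have hQ := norm_QA_lt h0 ha1 hz
  have h2 : ‖QA a z - QA a' z‖ ≤ 25 * |a - a'| := by
    have hn1 := den_lower h0 hz
    have hn2 := den_lower h0' hz
    have hz1 := den_ne' h0 ha1 hz
    have hz2 := den_ne' h0' ha1' hz
    have e : QA a z - QA a' z = z * ((a - a' : ℝ) : ℂ) * (1 - z ^ 2) /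
        ((1 - a * z) * (1 - a' * z)) := by
      unfold QA
      rw [eq_div_iff (mul_ne_zero hz1 hz2), sub_mul]
      have e1 : z * (a - z) / (1 - a * z) * ((1 - a * z) * (1 - a' * z)) =
          z * (a - z) * (1 - a' * z) := by
        rw [div_mul_eq_mul_div, div_eq_iff hz1]; ring
      have e2 : z * (a' - z) / (1 - a' * z) * ((1 - a * z) * (1 - a' * z)) =
          z * (a' - z) * (1 - a * z) := by
        rw [div_mul_eq_mul_div, div_eq_iff hz2]; ring
      rw [e1, e2]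
      push_cast
      ring
    rw [e, norm_div, norm_mul, norm_mul, norm_mul, Complex.norm_real, Real.norm_eq_abs,
      div_le_iff₀ (by
        have := norm_pos_iff.2 hz1
        have := norm_pos_iff.2 hz2
        positivity)]
    have h3 : ‖1 - z ^ 2‖ ≤ 2 := by
      have := norm_sub_le (1 : ℂ) (z ^ 2)
      rw [norm_one, norm_pow] at this
      have h3 : ‖z‖ ^ 2 ≤ 1 := pow_le_one₀ (norm_nonneg _) hz.le
      linarith
    have h4 : ‖z‖ * |a - a'| * ‖1 - z ^ 2‖ ≤ 1 * |a - a'| * 2 := by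
      have := abs_nonneg (a - a')
      gcongr
    have h5 : (0.29 : ℝ) * 0.29 ≤ ‖1 - (a : ℂ) * z‖ * ‖1 - (a' : ℂ) * z‖ := by
      refine mul_le_mul ?_ ?_ (by norm_num) (norm_nonneg _)
      · norm_num
        linarith
      · norm_num
        linarith
    have h6 : 25 * |a - a'| * ((0.29 : ℝ) * 0.29) ≤
        25 * |a - a'| * (‖1 - (a : ℂ) * z‖ * ‖1 - (a' : ℂ) * z‖) :=
      mul_le_mul_of_nonneg_left h5 (by positivity)
    norm_num at h6
    have := abs_nonneg (a - a')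
    linarith
  have h3 : ‖η * QA a z - η' * QA a' z‖ ≤ ‖η - η'‖ + 25 * |a - a'| := by
    have e : η * QA a z - η' * QA a' z = (η - η') * QA a z + η' * (QA a z - QA a' z) := by ring
    rw [e]
    refine (norm_add_le _ _).trans ?_
    rw [norm_mul, norm_mul, hη', one_mul]
    have : ‖η - η'‖ * ‖QA a z‖ ≤ ‖η - η'‖ * 1 :=
      mul_le_mul_of_nonneg_left hQ.le (norm_nonneg _)
    linarith
  rw [GG_eq, GG_eq]
  set w := η * QA a z
  set w' := η' * QA a' z
  have hne : 1 + (l : ℂ) * w ≠ 0 := norm_pos_iff.1 (by linarith)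
  have hne' : 1 + (l : ℂ) * w' ≠ 0 := norm_pos_iff.1 (by linarith)
  have e : (l + w) / (1 + l * w) - (l + w') / (1 + l * w') =
      (1 - l ^ 2) * (w - w') / ((1 + l * w) * (1 + l * w')) := by
    field_simp
    ring
  have e1 : ‖(1 : ℂ) - (l : ℂ) ^ 2‖ ≤ 1 := by
    have : (1 : ℂ) - (l : ℂ) ^ 2 = ((1 - l ^ 2 : ℝ) : ℂ) := by push_cast; ring
    rw [this, Complex.norm_real, Real.norm_eq_abs, abs_le]
    constructor <;> nlinarith
  rw [e, norm_div, norm_mul, norm_mul, div_le_iff₀ (by positivity)]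
  have h5 : (0.9 : ℝ) * 0.9 ≤ ‖1 + (l : ℂ) * w‖ * ‖1 + (l : ℂ) * w'‖ := by
    refine mul_le_mul ?_ ?_ (by norm_num) (norm_nonneg _)
    · norm_num
      linarith
    · norm_num
      linarith
  have h6 : ‖(1 : ℂ) - (l : ℂ) ^ 2‖ * ‖w - w'‖ ≤ 1 * (‖η - η'‖ + 25 * |a - a'|) :=
    mul_le_mul e1 h3 (norm_nonneg _) zero_le_one
  have h7 : (2 * ‖η - η'‖ + 50 * |a - a'|) * ((0.9 : ℝ) * 0.9) ≤
      (2 * ‖η - η'‖ + 50 * |a - a'|) * (‖1 + (l : ℂ) * w‖ * ‖1 + (l : ℂ) * w'‖) :=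
    mul_le_mul_of_nonneg_left h5 (by positivity)
  have := norm_nonneg (η - η')
  have := abs_nonneg (a - a')
  norm_num at h7
  linarith

lemma maj_lip_a {l a a' r : ℝ} {η η' : ℂ} (hl : 0 ≤ l) (hl1 : l ≤ 1 / 10) (hη : ‖η‖ = 1)
    (hη' : ‖η'‖ = 1) (h0 : 0 ≤ a) (h1 : a ≤ 0.71) (h0' : 0 ≤ a') (h1' : a' ≤ 0.71)
    (hr : 0 ≤ r) (hr1 : r ≤ nu) :
    maj l (GG l a η) r ≤ maj l (GG l a' η') r + 3 * (2 * ‖η - η'‖ + 50 * |a - a'|) := by
  have hnu := nu_pos
  have hnu1 := nu_lt_one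
  have ha1 : a < 1 := by norm_num at h1; linarith
  have ha1' : a' < 1 := by norm_num at h1'; linarith
  have hG := GG_mem hl (by linarith) hη h0 ha1
  have hG' := GG_mem hl (by linarith) hη' h0' ha1'
  set D := 2 * ‖η - η'‖ + 50 * |a - a'| with hD
  have hD0 : 0 ≤ D := by positivity
  have hρ := rho_lt
  have hρ0 := rho_pos
  have hsum : ∀ g ∈ FClass l, Summable fun n : ℕ => ‖tc g (n + 1)‖ * r ^ (n + 1) :=
    fun g hg => (summable_nat_add_iff (f := fun n : ℕ => ‖tc g n‖ * r ^ n) 1).2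
      (tc_summable hg.1 hr (by linarith))
  have h2 := hsum _ hG
  have h3 := hsum _ hG'
  have hκ : HasSum (fun n : ℕ => D * (1 / 1.3448) ^ (n + 1))
      (D * ((1 / 1.3448) * (1 - 1 / 1.3448)⁻¹)) := by
    refine HasSum.mul_left _ ?_
    refine ((hasSum_geometric_of_lt_one (r := (1 / 1.3448 : ℝ)) (by norm_num)
      (by norm_num)).mul_left (1 / 1.3448)).congr_fun (fun n => ?_)
    rw [pow_succ]; ring
  have hle := (h2.sub h3).tsum_le_tsum (fun n => ?_) hκ.summable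
  · rw [h2.tsum_sub h3, hκ.tsum_eq] at hle
    have e : ∀ g : ℂ → ℂ, maj l g r = l + ∑' n : ℕ, ‖tc g (n + 1)‖ * r ^ (n + 1) := fun _ => rfl
    rw [e, e]
    have h4 : D * ((1 / 1.3448) * (1 - 1 / 1.3448)⁻¹) ≤ D * 3 :=
      mul_le_mul_of_nonneg_left (by norm_num) hD0
    linarith
  · have hd : DifferentiableOn ℂ (fun z => GG l a η z - GG l a' η' z) (ball 0 1) :=
      hG.1.sub hG'.1
    have e : tc (fun z => GG l a η z - GG l a' η' z) (n + 1) =
        tc (GG l a η) (n + 1) - tc (GG l a' η') (n + 1) := by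
      refine tc_eq (c := fun n => tc (GG l a η) n - tc (GG l a' η') n) (fun z hz => ?_) (n + 1)
      have h4 := (tc_hasSum hG.1 hz).sub (tc_hasSum hG'.1 hz)
      have e1 : (fun n => tc (GG l a η) n * z ^ n - tc (GG l a' η') n * z ^ n) =
          fun n => (tc (GG l a η) n - tc (GG l a' η') n) * z ^ n := funext fun n => by ring
      rw [e1] at h4
      exact h4
    have h4 := tc_bound hd hρ0.le (by linarith) hD0 (fun z hz => GG_lip hl hl1 hη hη' h0 h1 h0' h1'
      (by rw [hz]; linarith)) (n + 1)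
    rw [e] at h4
    have h5 := norm_sub_norm_le (tc (GG l a η) (n + 1)) (tc (GG l a' η') (n + 1))
    have h6 : r ^ (n + 1) ≤ rho ^ (n + 1) * (1 / 1.3448) ^ (n + 1) := by
      rw [← mul_pow]
      refine pow_le_pow_left₀ hr ?_ _
      unfold rho
      norm_num
      linarith
    have h7 : (‖tc (GG l a η) (n + 1)‖ - ‖tc (GG l a' η') (n + 1)‖) * r ^ (n + 1) ≤
        ‖tc (GG l a η) (n + 1) - tc (GG l a' η') (n + 1)‖ * (rho ^ (n + 1) *
          (1 / 1.3448) ^ (n + 1)) :=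
      mul_le_mul h5 h6 (pow_nonneg hr _) (norm_nonneg _)
    have h8 := mul_le_mul_of_nonneg_right h4 (by positivity : (0 : ℝ) ≤ (1 / 1.3448) ^ (n + 1))
    linarith

/-- At the best radius all majorants are at most one. -/
lemma maj_BB_le {l : ℝ} (hl : 0 < l) (hls : l ≤ 1 / 10 ^ 16) {f : ℂ → ℂ} (hf : f ∈ FClass l) :
    maj l f (BB l) ≤ 1 := by
  have hnu := nu_pos
  have hl1 : l ≤ 1 / 16 := hls.trans (by norm_num)
  have hlo := BB_lower hl hl1
  have hup := BB_upper hl hls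
  have hB0 : 0 < BB l := lt_of_lt_of_le (mul_pos hnu (by linarith)) hlo
  have hBν : BB l ≤ nu := by
    refine hup.trans ?_
    nlinarith
  refine le_of_forall_pos_le_add (fun e he => ?_)
  set r : ℝ := max 0 (BB l - e / 12) with hr
  have hr0 : 0 ≤ r := le_max_left _ _
  have hrB : r < BB l := max_lt hB0 (by linarith)
  have hne : {r : ℝ | 0 ≤ r ∧ r < 1 ∧ ∀ f ∈ FClass l, maj l f r ≤ 1}.Nonempty := by
    refine ⟨nu * (1 - l), mul_nonneg hnu.le (by linarith), ?_, fun f hf => maj_le_one hl hl1 hf⟩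
    have := nu_lt_one
    nlinarith
  obtain ⟨r1, hr1, hr2⟩ := exists_lt_of_lt_csSup hne hrB
  have h1 := maj_mono hf hr0 hr2.le hr1.2.1
  have h2 := hr1.2.2 f hf
  have h3 := maj_lip_r hf hr0 hrB.le hBν
  have h4 : BB l - e / 12 ≤ r := le_max_right _ _
  linarith

theorem exists_extremal {l : ℝ} (hl : 0 < l) (hls : l ≤ 1 / 10 ^ 16) :
    ∃ (a : ℝ) (η : ℂ), |a - nu| ≤ 7 * l ∧ ‖η‖ = 1 ∧ maj l (GG l a η) (BB l) = 1 := by
  have hnu := nu_pos
  have hnu1 := nu_lt
  have hnu2 := lt_nu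
  have hl1 : l ≤ 1 / 16 := hls.trans (by norm_num)
  have hl10 : l ≤ 1 / 10 := hls.trans (by norm_num)
  have hlo := BB_lower hl hl1
  have hup := BB_upper hl hls
  have hB0 : 0 < BB l := lt_of_lt_of_le (mul_pos hnu (by linarith)) hlo
  have hBν : BB l ≤ nu := by
    refine hup.trans ?_
    nlinarith
  set c : ℝ := nu * (l ^ 2 / 4) with hc
  have hc0 : 0 < c := by positivity
  set r : ℕ → ℝ := fun j => BB l + c * (1 / ((j : ℝ) + 1)) with hr
  have hj : ∀ j : ℕ, 0 < 1 / ((j : ℝ) + 1) ∧ 1 / ((j : ℝ) + 1) ≤ 1 := by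
    intro j
    have h0 : (0 : ℝ) ≤ j := Nat.cast_nonneg j
    refine ⟨by positivity, ?_⟩
    rw [div_le_one (by positivity)]
    linarith
  have hrB : ∀ j, BB l < r j := fun j => by
    have := mul_pos hc0 (hj j).1
    simp only [hr]
    linarith
  have hrc : ∀ j, r j ≤ nu * (1 - l / 2 + l ^ 2 / 2) := fun j => by
    have h1 : c * (1 / ((j : ℝ) + 1)) ≤ c * 1 := mul_le_mul_of_nonneg_left (hj j).2 hc0.le
    simp only [hr]
    rw [hc] at h1 ⊢
    linarith
  have hrν : ∀ j, r j ≤ nu := fun j => by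
    refine (hrc j).trans ?_
    nlinarith
  have hex : ∀ j, ∃ (a : ℝ) (η : ℂ), |a - nu| ≤ 7 * l ∧ ‖η‖ = 1 ∧
      1 ≤ maj l (GG l a η) (r j) := by
    intro j
    have h1 : ∃ f ∈ FClass l, 1 < maj l f (r j) := by
      by_contra hcon
      push Not at hcon
      have h2 : r j ≤ BB l := by
        refine le_csSup ⟨1, fun r hr => hr.2.1.le⟩ ⟨by linarith [hrB j], ?_, hcon⟩
        linarith [hrν j]
      linarith [hrB j]
    obtain ⟨f, hf, hf1⟩ := h1
    obtain ⟨a, η, ω, h2, h3, _, _, h4⟩ := reduce hl hls hf (hlo.trans (hrB j).le) (hrc j) (hrν j)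
      hf1.le
    exact ⟨a, η, h2, h3, by linarith⟩
  choose a η ha hη hm using hex
  have hK : IsCompact (Icc (nu - 7 * l) (nu + 7 * l) ×ˢ sphere (0 : ℂ) 1) :=
    isCompact_Icc.prod (isCompact_sphere _ _)
  obtain ⟨p, hp, φ, hφ, hlim⟩ := hK.tendsto_subseq (x := fun j => (a j, η j)) (fun j => by
    refine ⟨?_, by simpa using hη j⟩
    have := abs_le.1 (ha j)
    constructor <;> simp only <;> linarith [this.1, this.2])
  obtain ⟨A, H⟩ := p
  have hA : |A - nu| ≤ 7 * l := by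
    have h1 := hp.1
    simp only [mem_Icc] at h1
    rw [abs_le]
    constructor <;> linarith [h1.1, h1.2]
  have hH : ‖H‖ = 1 := by
    have h1 := hp.2
    simpa using h1
  have h7l : 7 * l ≤ 7 / 10 ^ 16 := by linarith
  norm_num at h7l hnu1 hnu2
  have hbd : ∀ x : ℝ, |x - nu| ≤ 7 * l → 0 ≤ x ∧ x ≤ 0.71 := by
    intro x hx
    rw [abs_le] at hx
    constructor
    · linarith [hx.1]
    · norm_num
      linarith [hx.2]
  refine ⟨A, H, hA, hH, le_antisymm ?_ ?_⟩
  · exact maj_BB_le hl hls (GG_mem hl.le (by linarith) hH (hbd A hA).1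
      (by have := (hbd A hA).2; norm_num at this; linarith))
  · have hlim1 : Tendsto (fun j => a (φ j)) atTop (𝓝 A) :=
      (continuous_fst.tendsto (A, H)).comp hlim
    have hlim2 : Tendsto (fun j => η (φ j)) atTop (𝓝 H) :=
      (continuous_snd.tendsto (A, H)).comp hlim
    have hlim3 : Tendsto (fun j => 1 / (((φ j : ℕ) : ℝ) + 1)) atTop (𝓝 0) :=
      tendsto_one_div_add_atTop_nhds_zero_nat.comp hφ.tendsto_atTop
    have hlim4 : Tendsto (fun j => maj l (GG l A H) (BB l) +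
        3 * (2 * ‖η (φ j) - H‖ + 50 * |a (φ j) - A|) +
        12 * (c * (1 / (((φ j : ℕ) : ℝ) + 1)))) atTop
        (𝓝 (maj l (GG l A H) (BB l) + 3 * (2 * ‖H - H‖ + 50 * |A - A|) + 12 * (c * 0))) :=
      (tendsto_const_nhds.add ((((hlim2.sub_const H).norm.const_mul 2).add
        ((hlim1.sub_const A).abs.const_mul 50)).const_mul 3)).add
        ((hlim3.const_mul c).const_mul 12)
    simp only [sub_self, norm_zero, abs_zero, mul_zero, add_zero] at hlim4
    refine ge_of_tendsto' hlim4 (fun j => ?_)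
    have h1 := hm (φ j)
    have hab := hbd _ (ha (φ j))
    have hab' := hbd A hA
    have hG : GG l (a (φ j)) (η (φ j)) ∈ FClass l :=
      GG_mem hl.le (by linarith) (hη _) hab.1 (by have := hab.2; norm_num at this; linarith)
    have h2 := maj_lip_r hG hB0.le (hrB (φ j)).le (hrν (φ j))
    have h3 := maj_lip_a (l := l) (r := BB l) hl.le hl10 (hη (φ j)) hH hab.1 hab.2 hab'.1 hab'.2
      hB0.le hBν
    have h4 : r (φ j) - BB l = c * (1 / (((φ j : ℕ) : ℝ) + 1)) := by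
      simp only [hr]; ring
    rw [h4] at h2
    linarith

end Pool.Agent.P187s
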